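import Pool.Agent.Helper69.TPF.Defs

/-!
# Project TPF, parts G and C: the group theory

`F = FreeGroup (Fin g)`, `S = Surf g`, `lev` = level subgroups (Defs.lean).  Facts proved in Defs.lean: `mem_lev`,
`lev_normal`, `lev_anti`, `lev_map` (homomorphisms preserve levels), `lev_kill` (a homomorphism to a group of order
at most `n` kills `lev n`), `Rel_map`, `Rel_gen`.
-/

set_option autoImplicit false

open scoped commutatorElement

namespace Pool.Agent.Helper69.TPF

open Pool.Agent.Helper6.TS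

/-- **LFI** (levels are finite).  A normal subgroup of index `k ≤ n` is the kernel of a homomorphism to
`Equiv.Perm (Fin k)` (action on the cosets); the homomorphisms from a finitely generated group to a finite group are
determined by the images of the generators, so there are finitely many; `lev G n` is a finite intersection of
subgroups of finite index. -/
def St_LFI : Prop := ∀ (G : Type) [Group G] [Group.FG G] (n : ℕ), Finite (G ⧸ lev G n)

/-- **GAS** (Gaschuetz lemma).  For a subgroup `K ≤ E` with `K ⊔ N = ⊤` and a tuple `y : ι → E` with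
`GenMod N y` let `g_K(y)` be the number of `c : ι → N` (values in `N`) with `closure (range (y * c)) = K`.  Claim:
`g_K(y)` does not depend on `y`, by strong induction on `|K|`: the number of all `c` such that `y * c` has values in
`K` is `|K ∩ N| ^ |ι|` (as `K N = E`, the set `y i N ∩ K` is a coset of `K ∩ N`), and it is the sum of the
`g_{K'}(y)` over the `K' ≤ K` (necessarily `K' ⊔ N = ⊤`).  For `K = ⊤` and `y = z` the number is positive. -/
def St_GAS : Prop :=
  ∀ (ι E : Type) [Finite ι] [Group E] [Finite E] (N : Subgroup E) [N.Normal] (z y : ι → E), Gen z → GenMod N y →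
    ∃ c : ι → E, (∀ i, c i ∈ N) ∧ Gen fun i => y i * c i

/-- **GAL** (Gaschuetz lemma at a level of the free group; hypotheses LFI, GAS).  Apply GAS to
`E = F ⧸ lev F m` (finite by LFI), the image of `N`, `z` the images of the generators of `F`, and lift the `c i` to
elements of `N`. -/
def St_GAL : Prop :=
  ∀ (g m : ℕ) (N : Subgroup (FreeGroup (Fin g))) [N.Normal] (y : Fin g → FreeGroup (Fin g)),
    GenMod (N ⊔ lev (FreeGroup (Fin g)) m) y →
    ∃ c : Fin g → FreeGroup (Fin g), (∀ i, c i ∈ N) ∧ GenMod (lev (FreeGroup (Fin g)) m) fun i => y i * c i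

/-- **RLF** (the quotient of level `m` is relatively free; hypothesis LFI).  The endomorphism `φ = lift y` of `F`
induces (`lev_map`) an endomorphism of the finite group `F ⧸ lev F m`, surjective by assumption, hence injective. -/
def St_RLF : Prop :=
  ∀ (g m : ℕ) (y : Fin g → FreeGroup (Fin g)), GenMod (lev (FreeGroup (Fin g)) m) y →
    ∀ v : FreeGroup (Fin g), FreeGroup.lift y v ∈ lev (FreeGroup (Fin g)) m → v ∈ lev (FreeGroup (Fin g)) m

/-- **PRE** (prescribed values on a generating tuple; hypotheses LFI, RLF).  `ψ = lift w : F → H` kills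
`lev F m` (`lev_kill`), so it factors through `F ⧸ lev F m`, on which `lift y` induces an automorphism `θ`
(surjective endomorphism of a finite group); `φ = ψ ∘ θ⁻¹ ∘ mk`. -/
def St_PRE : Prop :=
  ∀ (g m : ℕ) (y : Fin g → FreeGroup (Fin g)), GenMod (lev (FreeGroup (Fin g)) m) y →
    ∀ (H : Type) [Group H] [Finite H], Nat.card H ≤ m → ∀ w : Fin g → H,
      ∃ φ : FreeGroup (Fin g) →* H, ∀ i, φ (y i) = w i

/-- **NGN** (normal generation of the kernel).  Let `a : F → P = FreeGroup {i // t i = l}` with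
`a (y s) = tgt t l s`, `y` generating modulo `lev F m`.  `ν = lift y W * r` with `r ∈ lev F m`, `W ∈ F`.
Let `ρ : F → P`, `of s ↦ tgt t l s`, so `a ∘ lift y = ρ`; `ρ W = a (r⁻¹)` (as `a ν = 1`) is in `lev P m`.
Let `σ : P → F`, `of ⟨s, _⟩ ↦ of s`.  `W * (σ (ρ W))⁻¹` is in the normal closure of the `of s`, `t s ≠ l`
(`F → F`, `of s ↦ of s` if `t s = l`, `1` otherwise, is `σ ∘ ρ`, and modulo this normal closure it is the identity).
And `lift y (σ (ρ W)) ∈ lev F m` (`lev_map`). -/
def St_NGN : Prop :=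
  ∀ (g m : ℕ) (t : Fin g → Fin 3) (l : Fin 3) (a : FreeGroup (Fin g) →* FreeGroup {i // t i = l})
    (y : Fin g → FreeGroup (Fin g)), (∀ s, a (y s) = tgt t l s) → GenMod (lev (FreeGroup (Fin g)) m) y →
    ∀ ν, a ν = 1 → ν ∈ Subgroup.normalClosure {x | ∃ s, t s ≠ l ∧ x = y s} ⊔ lev (FreeGroup (Fin g)) m

/-- **CEN** (surface words of lifts).  Changing the entries by central elements does not change the commutators. -/
def St_CEN : Prop :=
  ∀ (g : ℕ) (Γ G : Type) [Group Γ] [Group G] (p : Γ →* G), p.ker ≤ Subgroup.center Γ →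
    ∀ s s' : Fin g × Bool → Γ, (∀ i, p (s i) = p (s' i)) → Rel s = Rel s'

/-- **FRC** (tuples from a free group have trivial class; hypothesis CEN).  Choose a homomorphism
`φ' : FreeGroup α → Γ` with `p ∘ φ' = φ` (`p` surjective).  By CEN `Rel s = Rel (φ' ∘ z) = φ' (Rel z) = 1`
(`lev_kill`, `Nat.card Γ ≤ m`). -/
def St_FRC : Prop :=
  ∀ (g m : ℕ) (α Γ G : Type) [Group Γ] [Group G] [Finite Γ] (p : Γ →* G), Function.Surjective p →
    p.ker ≤ Subgroup.center Γ → Nat.card Γ ≤ m → ∀ (φ : FreeGroup α →* G) (z : Fin g × Bool → FreeGroup α),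
      Rel z ∈ lev (FreeGroup α) m → ∀ s : Fin g × Bool → Γ, (∀ i, p (s i) = φ (z i)) → Rel s = 1

/-- Condition of the module ADP on a tuple `X` of elements of the surface group: it generates modulo level `m`,
satisfies the surface relation modulo level `m`, and has the images `1, v s` under `f` modulo level `m`. -/
def Adapted {g : ℕ} (m : ℕ) (f : Surf g →* FreeGroup (Fin g)) (v : Fin g → FreeGroup (Fin g))
    (X : Fin g × Bool → Surf g) : Prop :=
  GenMod (lev (Surf g) m) X ∧ Rel X ∈ lev (Surf g) m ∧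
    ∀ s, f (X (s, false)) ∈ lev (FreeGroup (Fin g)) m ∧ f (X (s, true)) * (v s)⁻¹ ∈ lev (FreeGroup (Fin g)) m

/-- **ADP** (adaptation to the first handlebody; hypotheses LFI, FRC and St_GEN of St1.lean, imported).  Apply GEN to
`π : E = S ⧸ lev S m → G = F ⧸ lev F m` induced by `f` (`lmap f m`; both finite by LFI, `Surf g` is finitely
generated), `t (s, false) = 1`, `t (s, true) = v s`, `t' = ` the images of the generators of `S`, `y'` = the classes
of the generators of `S`, `x = 1` (`Rel_gen`).  SameClass: in a finite central extension `Γ` of `G` the surface words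
of lifts of `t` and of `t'` are both `1` by FRC with `φ = mk`, `z = (1, v s)` (`Rel z = 1`) resp.
`z = f (generators)` (`Rel z = f 1 = 1`). -/
def St_ADP : Prop :=
  ∀ (g m : ℕ) (f : Surf g →* FreeGroup (Fin g)), Function.Surjective f →
    ∀ v : Fin g → FreeGroup (Fin g), GenMod (lev (FreeGroup (Fin g)) m) v → ∃ X, Adapted m f v X

/-- **BAS** (the prescribed tuple; hypothesis GAL).  `N = ker a01 ⊓ ker a02`.  By `hex` choose `v₀ s` with
`a01 (v₀ s) = tgt t 1 s`, `a02 (v₀ s) = tgt t 2 s`.  `GenMod N v₀`: the images of `v₀ s` in `P₁ × P₂` are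
`(of s, 1)` for `t s = 1`, `(1, of s)` for `t s = 2` (`ty` excludes `t s = 0`), they generate `P₁ × P₂`, and `N` is
the kernel of `F → P₁ × P₂`.  GAL. -/
def St_BAS : Prop :=
  ∀ (g m : ℕ) (t : Fin g → Fin 3) (D : HexData g t), ∃ v : Fin g → FreeGroup (Fin g),
    GenMod (lev (FreeGroup (Fin g)) m) v ∧ ∀ s, D.a01 (v s) = tgt t 1 s ∧ D.a02 (v s) = tgt t 2 s

/-- **DEL** (the image of the surface group).  Choose `k₀` with `f0 k₀ = z` (`s0`).  `x * (f1 k₀)⁻¹` is in the
kernel of `a12` (`a12 (f1 k₀) = a02 (f0 k₀)`, `c2`), take `k₁` from `n1`; `y * (f2 k₀)⁻¹` is in the kernel of `a21`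
(`c1`), take `k₂` from `n2`; `k = k₁ k₂ k₀`. -/
def St_DEL : Prop :=
  ∀ (g : ℕ) (t : Fin g → Fin 3) (D : HexData g t) (x y z : FreeGroup (Fin g)), D.a12 x = D.a02 z →
    D.a21 y = D.a01 z → ∃ k, D.f1 k = x ∧ D.f2 k = y ∧ D.f0 k = z

/-- Exact coordinates of an adapted tuple: `(α s, β s; 1)` and `(x s, y s; v s)`. -/
def Coords {g : ℕ} {t : Fin g → Fin 3} (D : HexData g t) (m : ℕ) (X : Fin g × Bool → Surf g)
    (α β x y : Fin g → FreeGroup (Fin g)) : Prop :=
  (∀ s, D.a12 (α s) = 1) ∧ (∀ s, D.a21 (β s) = 1) ∧ (∀ s, D.a12 (x s) = tgt t 2 s) ∧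
    (∀ s, D.a21 (y s) = tgt t 1 s) ∧
    ∀ s, D.f1 (X (s, false)) * (α s)⁻¹ ∈ lev (FreeGroup (Fin g)) m ∧
      D.f2 (X (s, false)) * (β s)⁻¹ ∈ lev (FreeGroup (Fin g)) m ∧
      D.f1 (X (s, true)) * (x s)⁻¹ ∈ lev (FreeGroup (Fin g)) m ∧
      D.f2 (X (s, true)) * (y s)⁻¹ ∈ lev (FreeGroup (Fin g)) m

/-- **COR** (exact coordinates; hypothesis DEL).  Let `k = X (s, b)`, `w = 1` or `v s` (exact value),
`z = f0 k * w⁻¹ ∈ lev F m`.  Sections: homomorphisms `κ₂ : P₂ → F` with `a12 ∘ κ₂ = id` and `κ₁ : P₁ → F` with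
`a21 ∘ κ₁ = id` (`P₁, P₂` are free, `a12, a21` surjective by `c1, c2, hex, s0`).
`d ∈ S` with `f1 d = κ₂ (a02 z)`, `f2 d = κ₁ (a01 z)`, `f0 d = z` (DEL); the first two are in `lev F m`
(`lev_map`).  `k' = d⁻¹ k` has `f0 k' = w`.  Put `α s` or `x s` `= f1 k'`, `β s` or `y s` `= f2 k'`.
`a12 (f1 k') = a02 (f0 k') = a02 w`, which is `1` or `tgt t 2 s`; in the same way `a21 (f2 k') = a01 w`. -/
def St_COR : Prop :=
  ∀ (g m : ℕ) (t : Fin g → Fin 3) (D : HexData g t) (v : Fin g → FreeGroup (Fin g)) (X : Fin g × Bool → Surf g),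
    (∀ s, D.a01 (v s) = tgt t 1 s ∧ D.a02 (v s) = tgt t 2 s) → Adapted m D.f0 v X →
    ∃ α β x y, Coords D m X α β x y

/-- **NG1** (the `α s` normally generate the kernel of `a12` modulo level `m`, the `β s` that of `a21`;
hypothesis RLF).  Let `a12 ν = 1`; take `k` with `f0 k = 1`, `f1 k = ν` (`n1`).  Let `Λ : FreeGroup (Fin g × Bool)
→ S` be given by `X`; `k = Λ W * r`, `r ∈ lev S m`.  Let `ρ : FreeGroup (Fin g × Bool) → F`, `(s, false) ↦ 1`,
`(s, true) ↦ of s`, and `ι : F → FreeGroup (Fin g × Bool)`, `of s ↦ of (s, true)`.  `f0 (Λ W)` is congruent to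
`lift v (ρ W)` modulo `lev F m` (Adapted) and it is in `lev F m`; so `ρ W ∈ lev F m` by RLF.
`W (ι (ρ W))⁻¹` is in the normal closure of the `of (s, false)`; `f1 ∘ Λ` maps it into the normal closure of the
`α s` times `lev F m` (Coords), and it maps `ι (ρ W)` into `lev F m`. -/
def St_NG1 : Prop :=
  ∀ (g m : ℕ) (t : Fin g → Fin 3) (D : HexData g t) (v : Fin g → FreeGroup (Fin g)) (X : Fin g × Bool → Surf g)
    (α β x y : Fin g → FreeGroup (Fin g)), GenMod (lev (FreeGroup (Fin g)) m) v → Adapted m D.f0 v X →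
    Coords D m X α β x y →
    (∀ ν, D.a12 ν = 1 → ν ∈ Subgroup.normalClosure (Set.range α) ⊔ lev (FreeGroup (Fin g)) m) ∧
    ∀ ν, D.a21 ν = 1 → ν ∈ Subgroup.normalClosure (Set.range β) ⊔ lev (FreeGroup (Fin g)) m

/-- The product of the commutators `[α s, x s]`. -/
def Rel2 {g : ℕ} {G : Type} [Group G] (α x : Fin g → G) : G := ((List.finRange g).map fun i => ⁅α i, x i⁆).prod

end Pool.Agent.Helper69.TPF
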