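import Pool.Agent.Helper69.TPF.St1
import Pool.Agent.Helper69.TPF.St2

set_option autoImplicit false

open scoped commutatorElement

namespace Pool.Agent.Helper69.TPF

open Pool.Agent.Helper6.TS

theorem cADP (lfi : St_LFI) (frc : St_FRC) (gen : St_GEN) : St_ADP := by
  intro g m f hf v hv
  have hE : Finite (Lq (Surf g) m) := lfi _ m
  have hG : Finite (Lq (FreeGroup (Fin g)) m) := lfi _ m
  let tX : Fin g × Bool → FreeGroup (Fin g) := fun i => if i.2 then v i.1 else 1
  let gS : Fin g × Bool → Surf g := fun i => PresentedGroup.of i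
  have gv : GenMod (lev (FreeGroup (Fin g)) m) tX := by
    apply genMod_of_le
    intro K h1 h2
    rw [Subgroup.eq_top_iff']
    intro x
    exact hv.le (K := K) (fun i => by
      have h3 := h1 (i, true)
      exact h3) h2 x
  have gg : GenMod (lev (Surf g) m) gS := by
    apply genMod_of_le
    intro K h1 _
    rw [← top_le_iff, ← PresentedGroup.closure_range_of, Subgroup.closure_le]
    rintro _ ⟨i, rfl⟩
    exact h1 i
  have gf : GenMod (lev (FreeGroup (Fin g)) m) fun i => f (gS i) :=
    gg.map f hf fun x hx => lev_map f hx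
  have relT : Rel tX = 1 := by
    unfold Rel
    apply List.prod_eq_one
    intro y hy
    rw [List.mem_map] at hy
    obtain ⟨i, -, rfl⟩ := hy
    show ⁅(1 : FreeGroup (Fin g)), v i⁆ = 1
    exact commutatorElement_one_left _
  have relG : Rel gS = 1 := Rel_gen g
  have sc : SameClass (Nat.card (Lq (Surf g) m) * Nat.card (Lq (FreeGroup (Fin g)) m))
      (fun i => (QuotientGroup.mk (tX i) : Lq (FreeGroup (Fin g)) m))
      (fun i => (QuotientGroup.mk (f (gS i)) : Lq (FreeGroup (Fin g)) m)) := by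
    intro Γ _ _ p hp hk hB s s' hs hs'
    have h1 : Rel s = 1 := frc g (Nat.card Γ) (Fin g) Γ _ p hp hk le_rfl (QuotientGroup.mk' _) tX
      (by rw [relT]; exact one_mem _) s hs
    have h2 : Rel s' = 1 := frc g (Nat.card Γ) (Fin g) Γ _ p hp hk le_rfl (QuotientGroup.mk' _) (fun i => f (gS i))
      (by rw [← Rel_map, relG, map_one]; exact one_mem _) s' hs'
    rw [h1, h2]
  obtain ⟨y, h1, h2, h3⟩ := gen (Lq (Surf g) m) (Lq (FreeGroup (Fin g)) m) (lmap f m) g _ _
    (genMod_iff_gen.1 gv) (genMod_iff_gen.1 gf) sc 1 (fun i => QuotientGroup.mk (gS i)) (fun i => rfl)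
    (by
      have h1 := Rel_map (QuotientGroup.mk' (lev (Surf g) m)) gS
      rw [relG, map_one] at h1
      exact h1.symm)
    (genMod_iff_gen.1 gg)
  choose X hX using fun i => QuotientGroup.mk_surjective (y i)
  have hfX : ∀ i, (f (X i))⁻¹ * tX i ∈ lev (FreeGroup (Fin g)) m := by
    intro i
    have h4 : (QuotientGroup.mk (f (X i)) : Lq (FreeGroup (Fin g)) m) = QuotientGroup.mk (tX i) := by
      rw [← h1 i, ← hX i]
      rfl
    exact QuotientGroup.eq.1 h4
  refine ⟨X, ?_, ?_, fun s => ⟨?_, ?_⟩⟩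
  · rw [genMod_iff_gen]
    have h4 : (fun i => (QuotientGroup.mk (X i) : Surf g ⧸ lev (Surf g) m)) = y := funext hX
    rw [h4]
    exact h3
  · have h4 := Rel_map (QuotientGroup.mk' (lev (Surf g) m)) X
    have h5 : (fun i => QuotientGroup.mk' (lev (Surf g) m) (X i)) = y := funext hX
    rw [h5, h2] at h4
    exact (QuotientGroup.eq_one_iff _).1 h4
  · have h4 := hfX (s, false)
    have h5 : (f (X (s, false)))⁻¹ ∈ lev (FreeGroup (Fin g)) m := by
      have h6 : tX (s, false) = 1 := rfl
      rw [h6, mul_one] at h4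
      exact h4
    exact (inv_mem_iff (x := f (X (s, false)))).1 h5
  · have h4 := hfX (s, true)
    have h6 : tX (s, true) = v s := rfl
    rw [h6] at h4
    have h7 := (lev_normal (FreeGroup (Fin g)) m).conj_mem _ h4 (v s)
    have h8 : v s * ((f (X (s, true)))⁻¹ * v s) * (v s)⁻¹ = (f (X (s, true)) * (v s)⁻¹)⁻¹ := by group
    rw [h8] at h7
    exact (inv_mem_iff (x := f (X (s, true)) * (v s)⁻¹)).1 h7

end Pool.Agent.Helper69.TPF
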