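import Pool.Agent.Helper69.TPF.St3

set_option autoImplicit false

namespace Pool.Agent.Helper69.TPF

open Pool.Agent.Helper6.TS

theorem cFIN (lvn : St_LVN) (hex : St_HEX) (kng : St_KNG) (sym : St_SYM) : St_FIN := by
  intro g k f hf l hl t ht
  obtain ⟨h1, h2, h3⟩ := sym g k f t l
  apply h3
  have hf' := h1 hf
  have ht' := h2 ht
  obtain ⟨D, d0, d1, d2⟩ := hex g _ _ hf' (by simpa using hl) _ ht'
  apply kng g _ _ hf'.surj
  intro n
  obtain ⟨Y, hY⟩ := lvn g _ D n
  refine ⟨Y, ?_⟩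
  have h4 : ![D.f0, D.f1, D.f2] = fun j => f (j + l) := by
    funext j
    fin_cases j
    · exact d0
    · exact d1
    · exact d2
  rw [h4] at hY
  exact hY

end Pool.Agent.Helper69.TPF
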