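import Pool.Agent.Helper69.TPF.St3
import Pool.Agent.Helper6.TS.Data

set_option autoImplicit false

open scoped commutatorElement

namespace Pool.Agent.Helper69.TPF

open Pool.Agent.Helper6.TS

theorem hex_top {g : ℕ} {k : Fin 3 → ℕ} {f : Fin 3 → (Surf g →* FreeGroup (Fin g))} (hf : GroupTrisection g k f)
    (l : Fin 3) (hl : k l = 0) : (f (l + 1)).ker ⊔ (f (l + 2)).ker = ⊤ := by
  obtain ⟨e⟩ := hf.sector l
  rw [Subgroup.eq_top_iff']
  intro x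
  rw [← QuotientGroup.eq_one_iff]
  apply e.injective
  have h : IsEmpty (Fin (k l)) := by rw [hl]; infer_instance
  have : Subsingleton (FreeGroup (Fin (k l))) := inferInstance
  exact Subsingleton.elim _ _

theorem cHEX (nhx : St_NHX) : St_HEX := by
  intro g k f hf hk t ht
  have hf' : IsTrisection g k f := ⟨hf.surj, hf.sector⟩
  have ht' : ∀ l, Fintype.card {i // t i = l} = k l := fun l => congrFun ht l
  obtain ⟨p1, hp1, hk1⟩ := sector_map hf' t ht' 1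
  obtain ⟨p2, hp2, hk2⟩ := sector_map hf' t ht' 2
  have e1 : (1 : Fin 3) + 1 = 2 := rfl
  have e2 : (1 : Fin 3) + 2 = 0 := rfl
  have e3 : (2 : Fin 3) + 1 = 0 := rfl
  have e4 : (2 : Fin 3) + 2 = 1 := rfl
  rw [e1, e2] at hk1
  rw [e3, e4] at hk2
  obtain ⟨a01, h01⟩ := factor (f 0) (hf.surj 0) p1 (by rw [hk1]; exact le_sup_right)
  obtain ⟨a21, h21⟩ := factor (f 2) (hf.surj 2) p1 (by rw [hk1]; exact le_sup_left)
  obtain ⟨a02, h02⟩ := factor (f 0) (hf.surj 0) p2 (by rw [hk2]; exact le_sup_left)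
  obtain ⟨a12, h12⟩ := factor (f 1) (hf.surj 1) p2 (by rw [hk2]; exact le_sup_right)
  have htop : (f 1).ker ⊔ (f 2).ker = ⊤ := hex_top hf 0 hk
  have hdec : ∀ x, ∃ x1 x2, f 1 x1 = 1 ∧ f 2 x2 = 1 ∧ x1 * x2 = x := by
    intro x
    have h : x ∈ (f 1).ker ⊔ (f 2).ker := htop ▸ Subgroup.mem_top x
    obtain ⟨a, ha, b, hb, hab⟩ := Subgroup.mem_sup_of_normal_right.1 h
    exact ⟨a, b, ha, hb, hab⟩
  have c01 : ∀ x, a01 (f 0 x) = p1 x := fun x => DFunLike.congr_fun h01 x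
  have c21 : ∀ x, a21 (f 2 x) = p1 x := fun x => DFunLike.congr_fun h21 x
  have c02 : ∀ x, a02 (f 0 x) = p2 x := fun x => DFunLike.congr_fun h02 x
  have c12 : ∀ x, a12 (f 1 x) = p2 x := fun x => DFunLike.congr_fun h12 x
  have z12 : ∀ x, f 1 x = 1 → p2 x = 1 := fun x hx => by rw [← c12, hx, map_one]
  have z21 : ∀ x, f 2 x = 1 → p1 x = 1 := fun x hx => by rw [← c21, hx, map_one]
  refine ⟨{ f0 := f 0, f1 := f 1, f2 := f 2, a01 := a01, a02 := a02, a12 := a12, a21 := a21, s0 := hf.surj 0,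
            s1 := hf.surj 1, s2 := hf.surj 2, c1 := fun x => by rw [c01, c21], c2 := fun x => by rw [c02, c12],
            hex := ?_, n1 := ?_, n2 := ?_, ty := ?_ }, rfl, rfl, rfl⟩
  · intro p q
    obtain ⟨x, rfl⟩ := hp1 p
    obtain ⟨y, rfl⟩ := hp2 q
    obtain ⟨x1, x2, hx1, hx2, rfl⟩ := hdec x
    obtain ⟨y1, y2, hy1, hy2, rfl⟩ := hdec y
    refine ⟨f 0 (x1 * y2), ?_, ?_⟩
    · rw [c01, map_mul, map_mul, z21 x2 hx2, z21 y2 hy2]
    · rw [c02, map_mul, map_mul, z12 x1 hx1, z12 y1 hy1]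
  · intro ν hν
    obtain ⟨x, rfl⟩ := hf.surj 1 ν
    have h1 : x ∈ p2.ker := by rw [MonoidHom.mem_ker, ← c12]; exact hν
    rw [hk2] at h1
    obtain ⟨a, ha, b, hb, rfl⟩ := Subgroup.mem_sup_of_normal_right.1 h1
    obtain ⟨y, h2, h3, h4⟩ := nhx g k f hf hk t ht 1 2 (Or.inl ⟨rfl, rfl⟩) a ha
    exact ⟨y, h2, by rw [h4, map_mul, MonoidHom.mem_ker.1 hb, mul_one], h3⟩
  · intro ν hν
    obtain ⟨x, rfl⟩ := hf.surj 2 ν
    have h1 : x ∈ p1.ker := by rw [MonoidHom.mem_ker, ← c21]; exact hν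
    rw [hk1, sup_comm] at h1
    obtain ⟨a, ha, b, hb, rfl⟩ := Subgroup.mem_sup_of_normal_right.1 h1
    obtain ⟨y, h2, h3, h4⟩ := nhx g k f hf hk t ht 2 1 (Or.inr ⟨rfl, rfl⟩) a ha
    exact ⟨y, h2, h3, by rw [h4, map_mul, MonoidHom.mem_ker.1 hb, mul_one]⟩
  · intro i hi
    have h1 := ht' 0
    rw [hk, Fintype.card_eq_zero_iff] at h1
    exact h1.false ⟨i, hi⟩

end Pool.Agent.Helper69.TPF
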