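import Pool.Agent.Helper69.TPF.St2

/-!
# Project TPF, parts V, X and L: vanishing, classes, levels, result

`F = FreeGroup (Fin g)`, `S = Surf g`.  Proved in Defs.lean: `GenMod.mono`, `GenMod.le`, `genMod_of_le`, `GenMod.map`,
`genMod_iff_gen`, `hom_eq_of_genMod` (homomorphisms to a group of order at most `m` which agree on a tuple generating
modulo level `m` are equal), `lev_hom_kill`, `lev_kill`, `lev_map`, `Rel_map`, `Rel_gen`.
-/

set_option autoImplicit false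

open scoped commutatorElement

namespace Pool.Agent.Helper69.TPF

open Pool.Agent.Helper6.TS

/-- **EPS** (adapted generators; hypothesis GAL).  Choose `w s` with `a (w s) = tgt t l s`.  `closure (range w)` maps
onto `FreeGroup {i // t i = l}` (its generators are the `tgt t l s` with `t s = l`), so `GenMod a.ker w`, hence
`GenMod (a.ker ⊔ lev F m) w`.  GAL gives `c s ∈ a.ker`; `ε s = w s * c s`. -/
def St_EPS : Prop :=
  ∀ (g m : ℕ) (t : Fin g → Fin 3) (l : Fin 3) (a : FreeGroup (Fin g) →* FreeGroup {i // t i = l}),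
    Function.Surjective a → ∃ ε : Fin g → FreeGroup (Fin g), (∀ s, a (ε s) = tgt t l s) ∧
      GenMod (lev (FreeGroup (Fin g)) m) ε

/-- **VNA** (the coefficient module; hypothesis LFI).  `N = a.ker`, `D = ⁅N, N⁆ ⊔ lev F n`, normal in `F`.
`A = N ⧸ D.subgroupOf N`: commutative as `⁅N, N⁆ ≤ D`, finite as `N ∩ lev F n ≤ D` and `N / (N ∩ lev F n)` embeds in
the finite group `F ⧸ lev F n`.  `F` acts on `A` by conjugation and `N` acts trivially
(`ν ν' ν⁻¹ = [ν, ν'] ν'`), so the action factors through `a`: as `FreeGroup J` is free, define `ω` on the generators by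
the conjugation by a preimage, and `F → MulAut A` and `ω ∘ a` agree because two elements of `F` with the same image
under `a` differ by an element of `N`. -/
def St_VNA : Prop :=
  ∀ (g n : ℕ) (J : Type) (a : FreeGroup (Fin g) →* FreeGroup J), Function.Surjective a →
    ∃ (A : Type) (_ : CommGroup A) (_ : Finite A) (ω : FreeGroup J →* MulAut A) (q : a.ker →* A),
      (∀ ν : a.ker, q ν = 1 ↔ (ν : FreeGroup (Fin g)) ∈ ⁅a.ker, a.ker⁆ ⊔ lev (FreeGroup (Fin g)) n) ∧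
      ∀ (z : FreeGroup (Fin g)) (ν ν' : a.ker), (ν' : FreeGroup (Fin g)) = z * ν * z⁻¹ → q ν' = ω (a z) (q ν)

/-- **WRE** (a finite wreath product which detects the vanishing).  Let `e = Monoid.exponent A > 0` (finite group).
For `j ∈ J`, `y ∈ MulAut A` let `P = FreeGroup J` act on `MulAut A × ZMod e` by
`of i ↦ ((z, c) ↦ (ω (of i) * z, c + if i = j ∧ z = y then 1 else 0))` (a permutation); together with `ω` this gives a
homomorphism `π₀ : P → (J × MulAut A → Equiv.Perm (MulAut A × ZMod e)) × MulAut A`.  `C` is its range (finite),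
`π' : P → C`, `ω' : C → MulAut A` the second projection, `ω' ∘ π' = ω`.
`W = (C → A) ⋊ C` with `(u φ) (v) = φ (u⁻¹ v)`, `c = rightHom`, `b y = inl (Pi.mulSingle 1 y)`, `Q = inr ∘ π'`,
`Pi (φ, u) = (∏_v ω' v (φ v), ω' u)`: a homomorphism, as
`∏_v ω' v (φ' (u⁻¹ v)) = ω' u (∏_v ω' v (φ' v))`; `Pi (b y) = inl y`, `Pi (Q z) = inr (ω z)`.
Vanishing: let `φ j = (φ_j, 1)`, `ψ j = (χ_j, x_j)`, `x_j = π' (of j)`.  As the base is commutative,
`[φ j, ψ j] = (v ↦ φ_j v * (φ_j (x_j⁻¹ v))⁻¹, 1)`.  So `∏_j φ_j v * (φ_j (x_j⁻¹ v))⁻¹ = 1` for all `v ∈ C`.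
Fix `j₀`, `y`; define `h : C → ZMod e` by `u • (1, 0) = (ω' u, h u)` in the copy of `MulAut A × ZMod e` with index
`(j₀, y)`; then `h (x_j u) = h u + if j = j₀ ∧ ω' u = y then 1 else 0`.  Raise the relation at `v` to the power
`h v` (`ZMod e` acts on `A` by powers) and multiply over `v ∈ C`:
`1 = ∏_j ∏_v φ_j v ^ (h v - h (x_j v)) = ∏_{v, ω' v = y} (φ_{j₀} v)⁻¹` (substitute `v ↦ x_j v` in the second factors).
So `∏_{v, ω' v = y} φ_{j₀} v = 1` for every `y`, hence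
`∏_v ω' v (φ_{j₀} v) = ∏_y y (∏_{v, ω' v = y} φ_{j₀} v) = 1`. -/
def St_WRE : Prop :=
  ∀ (J A : Type) [Finite J] [CommGroup A] [Finite A] (ω : FreeGroup J →* MulAut A),
    ∃ (W C : Type) (_ : Group W) (_ : Group C) (_ : Finite W) (_ : Finite C) (c : W →* C) (π' : FreeGroup J →* C)
      (b : A → W) (Q : FreeGroup J → W) (Pi : W →* A ⋊[MonoidHom.id (MulAut A)] MulAut A),
      (∀ w w', c w = 1 → c w' = 1 → w * w' = w' * w) ∧ (∀ y, c (b y) = 1) ∧ (∀ z, c (Q z) = π' z) ∧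
      (∀ y, Pi (b y) = SemidirectProduct.inl y) ∧ (∀ z, Pi (Q z) = SemidirectProduct.inr (ω z)) ∧
      ∀ L : List J, L.Nodup → (∀ j, j ∈ L) → ∀ φ ψ : J → W, (∀ j, c (φ j) = 1) →
        (∀ j, c (ψ j) = π' (FreeGroup.of j)) → (L.map fun j => ⁅φ j, ψ j⁆).prod = 1 → ∀ j, Pi (φ j) = 1

/-- **VNL** (vanishing; hypotheses EPS, PRE, NGN, VNA, WRE).  Take `A, ω, q` from VNA for `n` and `J = {i // t i = l}`,
then `W, C, ...` from WRE.  `m₀` is the maximum of `n`, `|W|`, `|C|`, `|MulAut A|`.  Take `ε` from EPS with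
`m = m₀` and `H : F → W` from PRE with `H (ε s) = Q (of s)` if `t s = l` and `H (ε s) = b (q (ε s))` otherwise
(`ε s ∈ a.ker` in the second case).  (1) `c ∘ H = π' ∘ a` by `hom_eq_of_genMod` (both agree on the `ε s`).
(2) `rightHom ∘ Pi ∘ H = ω ∘ a` in the same way.  (3) `Pi (H ν) = inl (q ν)` for `ν ∈ a.ker`: the elements `ν` of
`a.ker` with this property form a subgroup, which contains the `ε s`, `t s ≠ l`, and `a.ker ∩ lev F m₀` (`H` kills
`lev F m₀` as `|W| ≤ m₀`, and `q` kills it as `lev F m₀ ≤ lev F n`); it is closed under conjugation by `z ∈ F`: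
`Pi (H z) inl (q ν) Pi (H z)⁻¹ = inl (ω (a z) (q ν))` by (2) (`A` is commutative) and VNA.  By NGN it is `a.ker`.
Now let `m ≥ m₀` and `α, x` as in the statement.  `H` kills `lev F m`, so `∏ [H (α s), H (x s)] = 1` in `W`.
The factors with `t s ≠ l` are `1` (`c (H (α s)) = π' (a (α s)) = 1` and `c (H (x s)) = π' 1 = 1`, and `ker c` is
commutative).  For `t s = l`, `c (H (x s)) = π' (of s)`.  So WRE, with `L` the list of the `s` with `t s = l`, gives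
`Pi (H (α s)) = 1`, so `q (α s) = 1` by (3), which is the claim. -/
def St_VNL : Prop :=
  ∀ (g n : ℕ) (t : Fin g → Fin 3) (l : Fin 3) (a : FreeGroup (Fin g) →* FreeGroup {i // t i = l}),
    Function.Surjective a → ∃ m₀, ∀ m ≥ m₀, ∀ α x : Fin g → FreeGroup (Fin g), (∀ s, a (α s) = 1) →
      (∀ s, a (x s) = tgt t l s) → Rel2 α x ∈ lev (FreeGroup (Fin g)) m →
      ∀ s, t s = l → α s ∈ ⁅a.ker, a.ker⁆ ⊔ lev (FreeGroup (Fin g)) n

/-- **HOP** (Hopf).  `N = a.ker`, `M = ⁅N, ⊤⁆`; let `σ : FreeGroup J → F` with `a ∘ σ = id`.  `r z = mk (z * (σ (a z))⁻¹)`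
is a homomorphism `F → F ⧸ M`: with `ν = z (σ (a z))⁻¹`, `ν' = z' (σ (a z'))⁻¹` in `N` one has
`z z' (σ (a (z z')))⁻¹ = ν (σ (a z) ν' (σ (a z))⁻¹)`, congruent to `ν ν'`.  Its values lie in the image of `N`, which is
central, so it kills `⁅⊤, ⊤⁆`.  For `x ∈ N ⊓ ⁅⊤, ⊤⁆`, `1 = r x = mk x`. -/
def St_HOP : Prop :=
  ∀ (F J : Type) [Group F] (a : F →* FreeGroup J), Function.Surjective a →
    a.ker ⊓ ⁅(⊤ : Subgroup F), (⊤ : Subgroup F)⁆ ≤ ⁅a.ker, (⊤ : Subgroup F)⁆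

/-- **NHX** (the kernel of the map to a sector; hypothesis HOP).  `K_j` is the kernel of `f j`, `l = j'` where
`{i, j} = {1, 2}`; `K_1 ⊔ K_2 = ⊤` by the sector `0` (`k 0 = 0`, the pushout is `FreeGroup (Fin 0)`, trivial).  So the
total kernel is `⊤` and the theorem `data` of Pool/Agent/Helper6/TS/Data.lean (import it; `IsTrisection` and
`GroupTrisection` have the same fields) gives `κ, δ` with `Ker f t κ δ`, `SB κ δ`.  `t s ∈ {1, 2}` for all `s`
(`numType t 0 = 0`).  Let `M = f i (K_0 ∩ K_j)`, a normal subgroup of `F` (`f i` is surjective), and let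
`N = f i (K_0)`, which is the kernel of an epimorphism `a : F → FreeGroup {s // t s = j}` (the sector `j` belongs to
the maps `0` and `i`; `sector_map` of Data.lean gives `p : S → FreeGroup {s // t s = j}` with kernel `K_0 ⊔ K_i`, and
it factors through `f i`).  (1) `⁅N, ⊤⁆ ≤ M`: `⊤ = f i (K_j)` as `K_1 ⊔ K_2 = ⊤`, and for `x ∈ K_0`, `y ∈ K_j`,
`[f i x, f i y] = f i [x, y]`.  (2) So `N ⊓ ⁅⊤, ⊤⁆ ≤ M` by HOP.  (3) Let `x ∈ K_0`.  Every `κ s` is in `K_0`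
(`t s ≠ 0`), so `om (κ s) x = 0` by `lagrangian` (used in Data.lean), and the expansion of `x` in the symplectic
basis (`SB`, `expand` in Sym2.lean) has no `δ`: `x` is congruent modulo commutators to a product of powers of the
`κ s`.  For `t s = j` one has `f i (κ s) = 1`; for `t s = i` one has `κ s ∈ K_0 ∩ K_j`, so `f i (κ s) ∈ M`.  Hence
`f i x = μ c` with `μ ∈ M`, `c ∈ ⁅⊤, ⊤⁆`, and `c = μ⁻¹ f i x ∈ N` (as `M ≤ N`), so `c ∈ M` by (2). -/
def St_NHX : Prop :=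
  ∀ (g : ℕ) (k : Fin 3 → ℕ) (f : Fin 3 → (Surf g →* FreeGroup (Fin g))), GroupTrisection g k f → k 0 = 0 →
    ∀ t : Fin g → Fin 3, numType t = k → ∀ i j : Fin 3, (i = 1 ∧ j = 2) ∨ (i = 2 ∧ j = 1) →
      ∀ x, f 0 x = 1 → ∃ y, f 0 y = 1 ∧ f j y = 1 ∧ f i y = f i x

/-- **HEX** (the data; hypothesis NHX).  `sector_map` (Pool/Agent/Helper6/TS/Data.lean) gives epimorphisms
`p₁ : S → FreeGroup {i // t i = 1}` with kernel `K_2 ⊔ K_0` and `p₂ : S → FreeGroup {i // t i = 2}` with kernel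
`K_0 ⊔ K_1`; they factor: `p₁ = a01 ∘ f 0 = a21 ∘ f 2`, `p₂ = a02 ∘ f 0 = a12 ∘ f 1`.  `hex`: `K_1 ⊔ K_2 = ⊤`
(`k 0 = 0`); given `p`, write a preimage under `p₁` as `x₁ x₂`, `x_i ∈ K_i`: `p₁ x₁ = p`, `p₂ x₁ = 1`; in the same way
for `q`; `z = f 0 (x₁ x₂')`.  `n1`: `ν = f 1 x` with `p₂ x = 1`, `x = x₀ x₁`, `ν = f 1 x₀`, apply NHX with
`i = 1`, `j = 2`.  `n2`: the same with `p₁` and `i = 2`, `j = 1`.  `ty`: `numType t 0 = 0`. -/
def St_HEX : Prop :=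
  ∀ (g : ℕ) (k : Fin 3 → ℕ) (f : Fin 3 → (Surf g →* FreeGroup (Fin g))), GroupTrisection g k f → k 0 = 0 →
    ∀ t : Fin g → Fin 3, numType t = k → ∃ D : HexData g t, D.f0 = f 0 ∧ D.f1 = f 1 ∧ D.f2 = f 2

/-- **CMF** (commutator formula).  `B X = [B, X] X B`, so `A B X Y = [B, X] A X B Y`, and
`X Y A B = [A, Y]⁻¹ X A Y B`.  Hence `[A B, X Y] = [B, X] [A, Y] A X [B, Y] (X A)⁻¹`; and `A`, `X` commute with
`[B, Y]` (conjugation by `A` multiplies `B` and `Y` by central elements, so it fixes `[B, Y]`). -/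
def St_CMF : Prop :=
  ∀ (Γ : Type) [Group Γ] (A B X Y : Γ), ⁅A, B⁆ ∈ Subgroup.center Γ → ⁅A, Y⁆ ∈ Subgroup.center Γ →
    ⁅B, X⁆ ∈ Subgroup.center Γ → ⁅X, Y⁆ ∈ Subgroup.center Γ → ⁅A * B, X * Y⁆ = ⁅A, X⁆ * ⁅B, Y⁆ * (⁅A, Y⁆ * ⁅B, X⁆)

/-- **PAR** (the central pairing).  `[a a', b] = a [a', b] a⁻¹ [a, b]` and `[a, b b'] = [a, b] b [a, b'] b⁻¹`.
For `ν ∈ N1`, `y ↦ [r1 ν, r2 y]` is a homomorphism from `F` to the centre, so it kills commutators; for `y ∈ F`,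
`ν ↦ [r1 ν, r2 y]` is a homomorphism from `N1` to the centre, so it kills `⁅N1, N1⁆` (`≤ N1`). -/
def St_PAR : Prop :=
  ∀ (F Γ : Type) [Group F] [Group Γ] (r1 r2 : F →* Γ) (N1 : Subgroup F) [N1.Normal],
    (∀ ν ∈ N1, ∀ y, ⁅r1 ν, r2 y⁆ ∈ Subgroup.center Γ) →
    (∀ ν ∈ N1, ∀ y y', ⁅r1 ν, r2 (y * y')⁆ = ⁅r1 ν, r2 y⁆ * ⁅r1 ν, r2 y'⁆) ∧
    (∀ ν ∈ N1, ∀ ν' ∈ N1, ∀ y, ⁅r1 (ν * ν'), r2 y⁆ = ⁅r1 ν, r2 y⁆ * ⁅r1 ν', r2 y⁆) ∧
    (∀ c ∈ ⁅N1, N1⁆, ∀ y, ⁅r1 c, r2 y⁆ = 1) ∧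
    ∀ ν ∈ N1, ∀ c ∈ ⁅(⊤ : Subgroup F), (⊤ : Subgroup F)⁆, ⁅r1 ν, r2 c⁆ = 1

/-- **CLS** (comparison of the two surface words; hypotheses CEN, CMF, PAR).  Choose `r1, r2 : F → Γ` with
`p ∘ r1 = s1`, `p ∘ r2 = s2` (`F` is free, `p` surjective).  For `ν ∈ N1` and `y ∈ F` the element `[r1 ν, r2 y]` is in
`ker p`, hence central; likewise `[r2 ν, r1 x]` for `ν ∈ N2`.  PAR applies to `(r1, r2, N1)` and to `(r2, r1, N2)`.
By CEN we may replace `u (s, false)` by `r1 (α s) * r2 (β s)` and `u (s, true)` by `r1 (x s) * r2 (y s)`.  CMF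
applies (`α s ∈ N1`, `β s ∈ N2`; if `t s ≠ 2` then `x s ∈ N1`, otherwise `y s ∈ N2`, so `[r1 (x s), r2 (y s)]` is
central): the commutator number `s` is `r1 [α s, x s] * r2 [β s, y s] * ([r1 (α s), r2 (y s)] * [r2 (β s), r1 (x s)])`.
`r1 [α s, x s]` commutes with `r2 [β s', y s']` (PAR, last clause, `[α s, x s] ∈ N1`).  So `Rel u` is
`r1 (Rel2 α x) * r2 (Rel2 β y) * ∏_s ([r1 (α s), r2 (y s)] * [r2 (β s), r1 (x s)])`, and the first two factors are
`1` by `lev_kill` (`|Γ| ≤ B`).  For `t s ≠ 2`: `x s ∈ N1` and `β s ∈ ⁅N2, N2⁆ ⊔ K2`, so `[r2 (β s), r1 (x s)] = 1`: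
`z ↦ [r1 (x s), r2 z]` is a homomorphism to the centre which kills commutators, and `K2` since `r2` maps `K2` into
`ker p`.  For `t s = 2`: `y s ∈ N2`, `α s ∈ ⁅N1, N1⁆ ⊔ K1`, so `[r1 (α s), r2 (y s)] = 1` in the same way.  So
`Rel u = ∏_s w_s` with `w_s = [r1 (α s), r2 (y s)]` if `t s ≠ 2`, `w_s = [r2 (β s), r1 (x s)]` if `t s = 2`.  By CEN
`Rel u' = ∏_s w'_s` with the primed elements in place of `α, β, x, y`.  `w_s = w'_s`: `α' s = α s c`, `c ∈ ⁅N1, N1⁆`,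
`y' s = y s c'`, `c' ∈ ⁅N2, N2⁆ ≤ ⁅⊤, ⊤⁆` (PAR); and in the same way for `t s = 2`. -/
def St_CLS : Prop :=
  ∀ (g B : ℕ) (t : Fin g → Fin 3) (Γ G : Type) [Group Γ] [Group G] [Finite Γ] (p : Γ →* G),
    Function.Surjective p → p.ker ≤ Subgroup.center Γ → Nat.card Γ ≤ B →
    ∀ (s1 s2 : FreeGroup (Fin g) →* G) (N1 N2 K1 K2 : Subgroup (FreeGroup (Fin g))) [N1.Normal] [N2.Normal],
      (∀ x ∈ K1, s1 x = 1) → (∀ y ∈ K2, s2 y = 1) → (∀ ν ∈ N1, ∀ y, Commute (s1 ν) (s2 y)) →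
      (∀ x, ∀ ν ∈ N2, Commute (s1 x) (s2 ν)) →
      ∀ α β x y α' β' x' y' : Fin g → FreeGroup (Fin g), (∀ s, α s ∈ N1) → (∀ s, β s ∈ N2) →
        (∀ s, t s ≠ 2 → x s ∈ N1) → (∀ s, t s = 2 → y s ∈ N2) → (∀ s, t s ≠ 2 → β s ∈ ⁅N2, N2⁆ ⊔ K2) →
        (∀ s, t s = 2 → α s ∈ ⁅N1, N1⁆ ⊔ K1) → Rel2 α x ∈ lev (FreeGroup (Fin g)) B →
        Rel2 β y ∈ lev (FreeGroup (Fin g)) B → (∀ s, (α s)⁻¹ * α' s ∈ ⁅N1, N1⁆) →
        (∀ s, (x s)⁻¹ * x' s ∈ ⁅N1, N1⁆) → (∀ s, (β s)⁻¹ * β' s ∈ ⁅N2, N2⁆) → (∀ s, (y s)⁻¹ * y' s ∈ ⁅N2, N2⁆) →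
        ∀ u u' : Fin g × Bool → Γ, (∀ s, p (u (s, false)) = s1 (α s) * s2 (β s)) →
          (∀ s, p (u (s, true)) = s1 (x s) * s2 (y s)) →
          (∀ s, t s ≠ 2 → p (u' (s, false)) = s1 (α' s) ∧ p (u' (s, true)) = s2 (y' s)) →
          (∀ s, t s = 2 → p (u' (s, false)) = s2 (β' s) ∧ p (u' (s, true)) = s1 (x' s)) → Rel u = Rel u'

/-- The elements of the surface group whose three images are in the subgroups of level `n`. -/
def Wn {g : ℕ} {t : Fin g → Fin 3} (D : HexData g t) (n : ℕ) : Subgroup (Surf g) :=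
  (lev (FreeGroup (Fin g)) n).comap D.f0 ⊓ ((lev (FreeGroup (Fin g)) n).comap D.f1 ⊓
    (lev (FreeGroup (Fin g)) n).comap D.f2)

theorem mem_Wn {g : ℕ} {t : Fin g → Fin 3} (D : HexData g t) (n : ℕ) {x : Surf g} :
    x ∈ Wn D n ↔ D.f0 x ∈ lev (FreeGroup (Fin g)) n ∧ D.f1 x ∈ lev (FreeGroup (Fin g)) n ∧
      D.f2 x ∈ lev (FreeGroup (Fin g)) n := Iff.rfl

instance Wn_normal {g : ℕ} {t : Fin g → Fin 3} (D : HexData g t) (n : ℕ) : (Wn D n).Normal := by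
  unfold Wn
  infer_instance

/-- The values prescribed on the generators of the surface group. -/
def Presc {g : ℕ} {t : Fin g → Fin 3} (D : HexData g t) (v : Fin g → FreeGroup (Fin g)) : Prop :=
  ∀ s, D.a01 (v s) = tgt t 1 s ∧ D.a02 (v s) = tgt t 2 s

/-- **SIG** (the homomorphisms of the two sides; hypothesis DEL).  Let `w₂ : FreeGroup {i // t i = 2} → F`,
`of ⟨s, _⟩ ↦ v s` and `w₁ : FreeGroup {i // t i = 1} → F`, `of ⟨s, _⟩ ↦ v s`; then `a02 ∘ w₂ = id`, `a01 ∘ w₂ = 1`,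
`a01 ∘ w₁ = id`, `a02 ∘ w₁ = 1`.  By DEL for every `x ∈ F` there is `k` with `f1 k = x`, `f2 k = 1`,
`f0 k = w₂ (a12 x)`; `k` is unique up to the common kernel of `f0, f1, f2`, contained in `Wn D n`, so
`s1 x = mk k` is well defined, and a homomorphism.  `s2 y = mk k` with `f1 k = 1`, `f2 k = y`, `f0 k = w₁ (a21 y)`.
If `x ∈ lev F n` then `w₂ (a12 x) ∈ lev F n` and `k ∈ Wn D n`.  For `a12 ν = 1`, `s1 ν = mk k` with coordinates
`(ν, 1; 1)` commutes with `s2 y`, since the commutator has the coordinates `(1, 1; 1)`. -/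
def St_SIG : Prop :=
  ∀ (g n : ℕ) (t : Fin g → Fin 3) (D : HexData g t) (v : Fin g → FreeGroup (Fin g)), Presc D v →
    ∃ s1 s2 : FreeGroup (Fin g) →* Surf g ⧸ Wn D n,
      (∀ x ∈ lev (FreeGroup (Fin g)) n, s1 x = 1) ∧ (∀ y ∈ lev (FreeGroup (Fin g)) n, s2 y = 1) ∧
      (∀ ν, D.a12 ν = 1 → ∀ y, Commute (s1 ν) (s2 y)) ∧ (∀ x ν, D.a21 ν = 1 → Commute (s1 x) (s2 ν)) ∧
      (∀ k, D.f2 k = 1 → D.f0 k = 1 → s1 (D.f1 k) = QuotientGroup.mk k) ∧
      (∀ k, D.f1 k = 1 → D.f0 k = 1 → s2 (D.f2 k) = QuotientGroup.mk k) ∧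
      (∀ k s, t s = 2 → D.f2 k = 1 → D.a12 (D.f1 k) = tgt t 2 s → D.f0 k = v s →
        s1 (D.f1 k) = QuotientGroup.mk k) ∧
      ∀ k s, t s = 1 → D.f1 k = 1 → D.a21 (D.f2 k) = tgt t 1 s → D.f0 k = v s → s2 (D.f2 k) = QuotientGroup.mk k

/-- The tuple `T` has the standard form with entries `α', β', x', y', v`. -/
def IsTau {g : ℕ} {t : Fin g → Fin 3} (D : HexData g t) (v α' β' x' y' : Fin g → FreeGroup (Fin g))
    (T : Fin g × Bool → Surf g) : Prop :=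
  (∀ s, D.f0 (T (s, false)) = 1 ∧ D.f0 (T (s, true)) = v s) ∧
  (∀ s, t s ≠ 2 → D.f1 (T (s, false)) = α' s ∧ D.f2 (T (s, false)) = 1 ∧ D.f1 (T (s, true)) = 1 ∧
    D.f2 (T (s, true)) = y' s) ∧
  ∀ s, t s = 2 → D.f1 (T (s, false)) = 1 ∧ D.f2 (T (s, false)) = β' s ∧ D.f1 (T (s, true)) = x' s ∧
    D.f2 (T (s, true)) = 1

/-- **TAU** (hypothesis DEL).  Apply DEL to each entry; for `t s ≠ 2` one has `t s = 1` (`ty`), `tgt t 2 s = 1`. -/
def St_TAU : Prop :=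
  ∀ (g : ℕ) (t : Fin g → Fin 3) (D : HexData g t) (v α' β' x' y' : Fin g → FreeGroup (Fin g)), Presc D v →
    (∀ s, D.a12 (α' s) = 1) → (∀ s, D.a21 (β' s) = 1) → (∀ s, D.a12 (x' s) = tgt t 2 s) →
    (∀ s, D.a21 (y' s) = tgt t 1 s) → ∃ T, IsTau D v α' β' x' y' T

/-- **CLA** (hypotheses DEL, CLS, SIG).  `N1 = ker a12`, `N2 = ker a21`, `K1 = K2 = lev F n`, `G = S ⧸ Wn D n`.
Take `s1, s2` of SIG.  Let `k₁, k₂` have the coordinates `(α s, 1; 1)`, `(1, β s; 1)` (DEL); `X (s, false)` is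
congruent to `k₁ k₂` modulo `Wn D n` (Coords, Adapted, `lev F m ≤ lev F n`), so
`mk (X (s, false)) = s1 (α s) * s2 (β s)`.  In the same way `mk (X (s, true)) = s1 (x s) * s2 (y s)`: for `t s = 2`
take the coordinates `(x s, 1; v s)`, `(1, y s; 1)` (`tgt t 1 s = 1`), for `t s = 1` take `(x s, 1; 1)`,
`(1, y s; v s)`.  `mk (T (s, false)) = s1 (α' s)` or `s2 (β' s)`, `mk (T (s, true)) = s2 (y' s)` or `s1 (x' s)` by SIG
(`a12 (x' s) = a12 (x s)`).  `Rel X ∈ lev S m`, so `f1 (Rel X) ∈ lev F m`; as `f1 ∘ X` is congruent to `α, x` modulo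
`lev F m`, `Rel2 α x ∈ lev F m ≤ lev F B`; in the same way for `β, y`.  CLS for every central extension of `G`. -/
def St_CLA : Prop :=
  ∀ (g m n B : ℕ) (t : Fin g → Fin 3) (D : HexData g t) (v α β x y α' β' x' y' : Fin g → FreeGroup (Fin g))
    (X T : Fin g × Bool → Surf g), n ≤ m → B ≤ m → Presc D v → Adapted m D.f0 v X → Coords D m X α β x y →
    (∀ s, t s = 2 → α s ∈ ⁅D.a12.ker, D.a12.ker⁆ ⊔ lev (FreeGroup (Fin g)) n) →
    (∀ s, t s = 1 → β s ∈ ⁅D.a21.ker, D.a21.ker⁆ ⊔ lev (FreeGroup (Fin g)) n) →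
    (∀ s, (α s)⁻¹ * α' s ∈ ⁅D.a12.ker, D.a12.ker⁆) → (∀ s, (x s)⁻¹ * x' s ∈ ⁅D.a12.ker, D.a12.ker⁆) →
    (∀ s, (β s)⁻¹ * β' s ∈ ⁅D.a21.ker, D.a21.ker⁆) → (∀ s, (y s)⁻¹ * y' s ∈ ⁅D.a21.ker, D.a21.ker⁆) →
    IsTau D v α' β' x' y' T →
    SameClass B (fun i => (QuotientGroup.mk (T i) : Surf g ⧸ Wn D n)) fun i => QuotientGroup.mk (X i)

/-- **CRR** (corrections; hypothesis GAL).  `N = a.ker`, `u s = x s` if `t s = l`, `α s` otherwise.
Claim: `GenMod (⁅N, N⁆ ⊔ lev F n) u`.  Let `U = closure (range u) ⊔ (⁅N, N⁆ ⊔ lev F n)`.  `U ⊔ N = ⊤` because the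
`a (x s)`, `t s = l`, generate the image of `a`.  `U ⊓ N` is normal in `F`: it is normalised by `U`, and by `N`
as `ν μ ν⁻¹ = [ν, μ] μ` with `[ν, μ] ∈ ⁅N, N⁆ ≤ U ⊓ N`.  It contains all `α s`: for `t s ≠ l` clear, for `t s = l` by
hypothesis.  So it contains their normal closure `R`, which is in `N`, and `N ≤ U`: `ν ∈ N` is `w r` with `w ∈ R`,
`r ∈ lev F m ≤ lev F n ≤ U`.  So `U = ⊤`.
GAL with `⁅N, N⁆` gives `c s ∈ ⁅N, N⁆` such that `u s * c s` generates modulo `lev F n`.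
`x' s = x s * c s`, `α' s = α s` if `t s = l`, and `x' s = x s`, `α' s = α s * c s` otherwise. -/
def St_CRR : Prop :=
  ∀ (g n m : ℕ) (t : Fin g → Fin 3) (l : Fin 3) (a : FreeGroup (Fin g) →* FreeGroup {i // t i = l})
    (α x : Fin g → FreeGroup (Fin g)), n ≤ m → (∀ s, a (α s) = 1) → (∀ s, a (x s) = tgt t l s) →
    (∀ ν, a ν = 1 → ν ∈ Subgroup.normalClosure (Set.range α) ⊔ lev (FreeGroup (Fin g)) m) →
    (∀ s, t s = l → α s ∈ ⁅a.ker, a.ker⁆ ⊔ lev (FreeGroup (Fin g)) n) →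
    ∃ α' x' : Fin g → FreeGroup (Fin g), (∀ s, (α s)⁻¹ * α' s ∈ ⁅a.ker, a.ker⁆) ∧
      (∀ s, (x s)⁻¹ * x' s ∈ ⁅a.ker, a.ker⁆) ∧
      GenMod (lev (FreeGroup (Fin g)) n) fun s => if t s = l then x' s else α' s

/-- **TGH** (one half of the generation; hypothesis NGN).  `M = {ν | a ν = 1 ∧ ∃ k ∈ K, f k = ν ∧ fo k = 1 ∧
fz k = 1}` is a subgroup of `F`.  It contains `u s` for `t s ≠ l` (`a (u s) = tgt t l s = 1`) and
`a.ker ⊓ lev F n` (the first hypothesis gives `k`, the second gives `k ∈ K`).  It is normal in `F`: `F` is generated by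
the `u s` and `lev F n`; conjugation by `(u s)^(±1)`: conjugate `k` by the element of `K` given for `s`; conjugation
by `r ∈ lev F n`: `r ν r⁻¹ = [r, ν] ν` and `[r, ν] ∈ a.ker ⊓ lev F n`.  By NGN `a.ker ≤ M`.  Given `k` with
`a (f k) = 1`, `fo k = 1`, `fz k = 1` take `k' ∈ K` with the same three images; `k'⁻¹ k ∈ K` by the second
hypothesis. -/
def St_TGH : Prop :=
  ∀ (g n : ℕ) (t : Fin g → Fin 3) (l : Fin 3) (a : FreeGroup (Fin g) →* FreeGroup {i // t i = l}) (S : Type) [Group S]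
    (f fo fz : S →* FreeGroup (Fin g)) (K : Subgroup S) (u : Fin g → FreeGroup (Fin g)),
    (∀ ν, a ν = 1 → ∃ k, f k = ν ∧ fo k = 1 ∧ fz k = 1) →
    (∀ k, f k ∈ lev (FreeGroup (Fin g)) n → fo k ∈ lev (FreeGroup (Fin g)) n →
      fz k ∈ lev (FreeGroup (Fin g)) n → k ∈ K) →
    (∀ s, a (u s) = tgt t l s) → GenMod (lev (FreeGroup (Fin g)) n) u →
    (∀ s, t s ≠ l → ∃ k ∈ K, f k = u s ∧ fo k = 1 ∧ fz k = 1) →
    (∀ s, t s = l → ∃ k ∈ K, f k = u s ∧ fo k = 1) →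
    ∀ k, a (f k) = 1 → fo k = 1 → fz k = 1 → k ∈ K

/-- **TGE** (the tuple `T` generates; hypotheses DEL, TGH).  `K = closure (range T) ⊔ Wn D n`.  Let `k ∈ S`.
`f0 k = V r`, `V ∈ closure (range v)`, `r ∈ lev F n`, and `V = f0 k'` with `k'` in the subgroup generated by the
`T (s, true)`.  With sections `κ₂` of `a12` and `κ₁` of `a21` (as in COR) DEL gives `d` with the coordinates
`(κ₂ (a02 r), κ₁ (a01 r); r)`, all in `lev F n`, so `d ∈ Wn D n`; `k'⁻¹ k d⁻¹` has `f0 = 1`.  So we may assume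
`f0 k = 1`.  Then `a12 (f1 k) = 1` and `a21 (f2 k) = 1`, and by DEL `k = k₁ k₂ w` with the coordinates `(f1 k, 1; 1)`,
`(1, f2 k; 1)`, `(1, 1; 1)`.  `k₁ ∈ K` by TGH with `a12`, `l = 2`, `(f, fo, fz) = (f1, f2, f0)`,
`u s = x' s` if `t s = 2`, `α' s` otherwise (the elements of `K` are `T (s, false)` if `t s ≠ 2`, `T (s, true)` if
`t s = 2`), and `k₂ ∈ K` by TGH with `a21`, `l = 1`, `(f2, f1, f0)`, `u s = y' s` if `t s = 1`, `β' s` otherwise
(`t s ≠ 1` means `t s = 2`, by `ty`). -/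
def St_TGE : Prop :=
  ∀ (g n : ℕ) (t : Fin g → Fin 3) (D : HexData g t) (v α' β' x' y' : Fin g → FreeGroup (Fin g))
    (T : Fin g × Bool → Surf g), IsTau D v α' β' x' y' T → GenMod (lev (FreeGroup (Fin g)) n) v →
    (∀ s, D.a12 (α' s) = 1) → (∀ s, D.a21 (β' s) = 1) → (∀ s, D.a12 (x' s) = tgt t 2 s) →
    (∀ s, D.a21 (y' s) = tgt t 1 s) →
    GenMod (lev (FreeGroup (Fin g)) n) (fun s => if t s = 2 then x' s else α' s) →
    GenMod (lev (FreeGroup (Fin g)) n) (fun s => if t s = 1 then y' s else β' s) → GenMod (Wn D n) T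

/-- The tuple `Y` generates the surface group modulo level `n`, satisfies the surface relation modulo level `n`, and
its images under the `f j` vanish modulo level `n` where those of the generators under the standard maps vanish. -/
def LevStd {g : ℕ} (f : Fin 3 → (Surf g →* FreeGroup (Fin g))) (t : Fin g → Fin 3) (n : ℕ)
    (Y : Fin g × Bool → Surf g) : Prop :=
  GenMod (lev (Surf g) n) Y ∧ Rel Y ∈ lev (Surf g) n ∧
    ∀ s j, f j (Y (s, decide (t s = j))) ∈ lev (FreeGroup (Fin g)) n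

/-- **LVN** (standardness at one level; hypotheses LFI, GEN of St1.lean, BAS, ADP, COR, NG1, VNL, CRR, TAU, TGE, CLA).
`G = S ⧸ Wn D n` and `E = S ⧸ lev S n` are finite (LFI), `lev S n ≤ Wn D n`; `π : E → G`; `B = |E| |G|`.
`a12` is surjective (`c2`, `hex`, `s0`), and `a21`.  `m` is the maximum of `n`, `B`, the `m₀` of VNL for
`(n, l = 2, a12)` and the `m₀` for `(n, l = 1, a21)`.  BAS gives `v`, ADP gives `X`, COR gives `α, β, x, y`.
`Rel2 α x ∈ lev F m`, `Rel2 β y ∈ lev F m` as in CLA.  VNL: `α s ∈ ⁅ker a12, ker a12⁆ ⊔ lev F n` for `t s = 2` and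
`β s ∈ ⁅ker a21, ker a21⁆ ⊔ lev F n` for `t s = 1`.  NG1 and CRR (twice) give `α', x'` and `β', y'`, TAU gives `T`, TGE
gives `GenMod (Wn D n) T`, CLA gives `SameClass B`.  Apply GEN to `π`, `t = mk T`, `t' = mk X`, `y' = mk X` in `E`,
`x = 1`: a generating tuple `y` of `E` with `π y = mk T` and `Rel y = 1`; lift it to `Y : Fin g × Bool → S`.
`f_j (Y i)` is congruent to `f_j (T i)` modulo `lev F n`, and `T` has the required zeros (IsTau; `t s ∈ {1, 2}`). -/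
def St_LVN : Prop :=
  ∀ (g : ℕ) (t : Fin g → Fin 3) (D : HexData g t) (n : ℕ), ∃ Y, LevStd ![D.f0, D.f1, D.f2] t n Y

/-- **KNA** (Koenig; hypothesis LFI).  For every `n` the set of the tuples `y : Fin g × Bool → Lq S n` with `Gen y`,
`Rel y = 1` and `lmap (f j) n (y (s, decide (t s = j))) = 1` is finite and nonempty (`LevStd`, `genMod_iff_gen`), and
`lproj` maps the set of level `n + 1` to the set of level `n`.  `nonempty_sections_of_finite_inverse_system` (or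
`nonempty_sections_of_finite_cofiltered_system`) gives a compatible sequence. -/
def St_KNA : Prop :=
  ∀ (g : ℕ) (f : Fin 3 → (Surf g →* FreeGroup (Fin g))) (t : Fin g → Fin 3), (∀ n, ∃ Y, LevStd f t n Y) →
    ∃ y : ∀ n, Fin g × Bool → Lq (Surf g) n, (∀ n i, lproj (Surf g) n (y (n + 1) i) = y n i) ∧ (∀ n, Gen (y n)) ∧
      (∀ n, Rel (y n) = 1) ∧ ∀ n s j, lmap (f j) n (y n (s, decide (t s = j))) = 1

/-- **ATS** (automorphisms of the levels of the surface group; hypothesis LFI).  `Rel_eq_lift`: the tuple `y n` defines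
a homomorphism `S → Lq S n`, which kills `lev S n` (`lev_hom_kill`), so an endomorphism of `Lq S n`, surjective since
`y n` generates, hence bijective since `Lq S n` is finite.  Compatibility is checked on the generators. -/
def St_ATS : Prop :=
  ∀ (g : ℕ) (y : ∀ n, Fin g × Bool → Lq (Surf g) n), (∀ n i, lproj (Surf g) n (y (n + 1) i) = y n i) →
    (∀ n, Gen (y n)) → (∀ n, Rel (y n) = 1) →
    ∃ θ : FTower (Surf g), ∀ n i, θ.aut n (QuotientGroup.mk (PresentedGroup.of i)) = y n i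

/-- **ATF** (automorphisms of the levels of the free group; hypothesis LFI).  As ATS, without relation. -/
def St_ATF : Prop :=
  ∀ (g : ℕ) (w : ∀ n, Fin g → Lq (FreeGroup (Fin g)) n),
    (∀ n i, lproj (FreeGroup (Fin g)) n (w (n + 1) i) = w n i) → (∀ n, Gen (w n)) →
    ∃ ψ : FTower (FreeGroup (Fin g)), ∀ n i, ψ.aut n (QuotientGroup.mk (FreeGroup.of i)) = w n i

/-- **KNG** (from the levels to the towers; hypotheses KNA, ATS, ATF).  Take `y` from KNA and `θ` from ATS.  For `j` let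
`w n s = lmap (f j) n (y n (s, !decide (t s = j)))`; compatible; it generates, since `lmap (f j) n` is surjective, `y n`
generates, and the other images `lmap (f j) n (y n (s, decide (t s = j)))` are `1`.  `ψ j` from ATF.  The square
commutes on the generators: `std t j` (`stdGen`) maps the generator `(s, b)` to `of s` if `b = !decide (t s = j)` and
to `1` if `b = decide (t s = j)`. -/
def St_KNG : Prop :=
  ∀ (g : ℕ) (f : Fin 3 → (Surf g →* FreeGroup (Fin g))) (t : Fin g → Fin 3), (∀ j, Function.Surjective (f j)) →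
    (∀ n, ∃ Y, LevStd f t n Y) → StandardAtAllFiniteLevels f t

/-- **SYM** (relabelling).  `f' j = f (j + l)`, `t' s = t s - l`, `k' j = k (j + l)`.  The fields of `GroupTrisection`
for `j` are those of `f` for `j + l`; `numType t' j` counts the `i` with `t i - l = j`.  `stdGen t' j = stdGen t (j + l)`
(as `t s - l = j` iff `t s = j + l`), so `std t' j = std t (j + l)`; with `θ, ψ'` for `f'` take `θ` and
`ψ j = ψ' (j - l)` for `f`. -/
def St_SYM : Prop :=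
  ∀ (g : ℕ) (k : Fin 3 → ℕ) (f : Fin 3 → (Surf g →* FreeGroup (Fin g))) (t : Fin g → Fin 3) (l : Fin 3),
    (GroupTrisection g k f → GroupTrisection g (fun j => k (j + l)) fun j => f (j + l)) ∧
    (numType t = k → numType (fun s => t s - l) = fun j => k (j + l)) ∧
    (StandardAtAllFiniteLevels (fun j => f (j + l)) (fun s => t s - l) → StandardAtAllFiniteLevels f t)

/-- **FIN** (hypotheses LVN, HEX, KNG, SYM).  By SYM (with the given `l`) we may assume `l = 0`; HEX, LVN, KNG. -/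
def St_FIN : Prop :=
  ∀ (g : ℕ) (k : Fin 3 → ℕ) (f : Fin 3 → (Surf g →* FreeGroup (Fin g))), GroupTrisection g k f →
    ∀ l, k l = 0 → ∀ t : Fin g → Fin 3, numType t = k → StandardAtAllFiniteLevels f t

end Pool.Agent.Helper69.TPF
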