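import Pool.Agent.Helper69.TPF.St1
import Pool.Agent.Helper69.TPF.St3

set_option autoImplicit false

open scoped commutatorElement

namespace Pool.Agent.Helper69.TPF

open Pool.Agent.Helper6.TS

theorem lvn_lev_le_Wn {g : ℕ} {t : Fin g → Fin 3} (D : HexData g t) (n : ℕ) : lev (Surf g) n ≤ Wn D n :=
  fun _ hx => ⟨lev_map D.f0 hx, lev_map D.f1 hx, lev_map D.f2 hx⟩

theorem lvn_finite_Wn (lfi : St_LFI) {g : ℕ} {t : Fin g → Fin 3} (D : HexData g t) (n : ℕ) :
    Finite (Surf g ⧸ Wn D n) := by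
  have h0 : Finite (Lq (FreeGroup (Fin g)) n) := lfi _ n
  let φ : Surf g →* Lq (FreeGroup (Fin g)) n × Lq (FreeGroup (Fin g)) n × Lq (FreeGroup (Fin g)) n :=
    ((QuotientGroup.mk' _).comp D.f0).prod (((QuotientGroup.mk' _).comp D.f1).prod ((QuotientGroup.mk' _).comp D.f2))
  have h1 : φ.ker = Wn D n := by
    ext x
    rw [mem_Wn, MonoidHom.mem_ker]
    constructor
    · intro h
      have a0 := congrArg Prod.fst h
      have a1 := congrArg (fun z => z.2.1) h
      have a2 := congrArg (fun z => z.2.2) h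
      exact ⟨(QuotientGroup.eq_one_iff _).1 a0, (QuotientGroup.eq_one_iff _).1 a1, (QuotientGroup.eq_one_iff _).1 a2⟩
    · rintro ⟨a0, a1, a2⟩
      exact Prod.ext ((QuotientGroup.eq_one_iff _).2 a0)
        (Prod.ext ((QuotientGroup.eq_one_iff _).2 a1) ((QuotientGroup.eq_one_iff _).2 a2))
  rw [← h1]
  exact Finite.of_injective _ (QuotientGroup.kerLift_injective φ)

/-- congruent tuples have congruent surface words -/
theorem lvn_rel {g : ℕ} {G : Type} [Group G] (N : Subgroup G) [N.Normal] (y z : Fin g × Bool → G)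
    (h : ∀ i, y i * (z i)⁻¹ ∈ N) (hy : Rel y ∈ N) : Rel z ∈ N := by
  have h1 : ∀ w : Fin g × Bool → G, (QuotientGroup.mk (Rel w) : G ⧸ N) = Rel fun i => QuotientGroup.mk (w i) :=
    fun w => Rel_map (QuotientGroup.mk' N) w
  rw [← QuotientGroup.eq_one_iff] at hy ⊢
  rw [h1] at hy ⊢
  rw [← hy]
  congr 1
  funext i
  have h2 : (QuotientGroup.mk (y i * (z i)⁻¹) : G ⧸ N) = 1 := (QuotientGroup.eq_one_iff _).2 (h i)
  rw [QuotientGroup.mk_mul, QuotientGroup.mk_inv, mul_inv_eq_one] at h2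
  exact h2.symm

theorem lvn_rel2 {g : ℕ} {G : Type} [Group G] (α x : Fin g → G) :
    Rel2 α x = Rel fun i : Fin g × Bool => if i.2 then x i.1 else α i.1 := by
  unfold Rel2 Rel
  rfl

theorem cLVN (lfi : St_LFI) (gen : St_GEN) (bas : St_BAS) (adp : St_ADP) (cor : St_COR) (ng1 : St_NG1)
    (vnl : St_VNL) (crr : St_CRR) (tau : St_TAU) (tge : St_TGE) (cla : St_CLA) : St_LVN := by
  intro g t D n
  have hfin1 : Finite (Surf g ⧸ Wn D n) := lvn_finite_Wn lfi D n
  have hfin2 : Finite (Lq (Surf g) n) := by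
    have : Group.FG (Surf g) := inferInstance
    exact lfi _ n
  -- surjectivity
  have ha12 : Function.Surjective D.a12 := by
    intro q
    obtain ⟨z, -, hz⟩ := D.hex 1 q
    obtain ⟨x, rfl⟩ := D.s0 z
    exact ⟨D.f1 x, by rw [← D.c2]; exact hz⟩
  have ha21 : Function.Surjective D.a21 := by
    intro q
    obtain ⟨z, hz, -⟩ := D.hex q 1
    obtain ⟨x, rfl⟩ := D.s0 z
    exact ⟨D.f2 x, by rw [← D.c1]; exact hz⟩
  obtain ⟨m1, hm1⟩ := vnl g n t 2 D.a12 ha12
  obtain ⟨m2, hm2⟩ := vnl g n t 1 D.a21 ha21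
  let B := Nat.card (Lq (Surf g) n) * Nat.card (Surf g ⧸ Wn D n)
  obtain ⟨m, hmn, hmB, hmm1, hmm2⟩ : ∃ m, n ≤ m ∧ B ≤ m ∧ m1 ≤ m ∧ m2 ≤ m :=
    ⟨max (max n B) (max m1 m2), (le_max_left _ _).trans (le_max_left _ _),
      (le_max_right _ _).trans (le_max_left _ _), (le_max_left _ _).trans (le_max_right _ _),
      (le_max_right _ _).trans (le_max_right _ _)⟩
  obtain ⟨v, hv1, hv2⟩ := bas g m t D
  obtain ⟨X, hX⟩ := adp g m D.f0 D.s0 v hv1
  obtain ⟨α, β, x, y, hC⟩ := cor g m t D v X hv2 hX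
  obtain ⟨n1, n2⟩ := ng1 g m t D v X α β x y hv1 hX hC
  obtain ⟨cα, cβ, cx, cy, cc⟩ := hC
  obtain ⟨gX, rX, aX⟩ := hX
  -- relations of the coordinates
  have R1 : Rel2 α x ∈ lev (FreeGroup (Fin g)) m := by
    rw [lvn_rel2]
    apply lvn_rel _ (fun i => D.f1 (X i))
    · rintro ⟨s, b⟩
      cases b
      · exact (cc s).1
      · exact (cc s).2.2.1
    · rw [← Rel_map]
      exact lev_map D.f1 rX
  have R2 : Rel2 β y ∈ lev (FreeGroup (Fin g)) m := by
    rw [lvn_rel2]
    apply lvn_rel _ (fun i => D.f2 (X i))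
    · rintro ⟨s, b⟩
      cases b
      · exact (cc s).2.1
      · exact (cc s).2.2.2
    · rw [← Rel_map]
      exact lev_map D.f2 rX
  have V1 := hm1 m hmm1 α x cα cx R1
  have V2 := hm2 m hmm2 β y cβ cy R2
  obtain ⟨α', x', kα, kx, G1⟩ := crr g n m t 2 D.a12 α x hmn cα cx n1 V1
  obtain ⟨β', y', kβ, ky, G2⟩ := crr g n m t 1 D.a21 β y hmn cβ cy n2 V2
  -- the primed elements have the same images
  have aux : ∀ {H : Type} [Group H] (a : FreeGroup (Fin g) →* H) (z z' : FreeGroup (Fin g)),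
      z⁻¹ * z' ∈ ⁅a.ker, a.ker⁆ → a z' = a z := by
    intro H _ a z z' h
    have h1 : z⁻¹ * z' ∈ a.ker := Subgroup.commutator_le_left _ _ h
    rw [MonoidHom.mem_ker, map_mul, map_inv, inv_mul_eq_one] at h1
    exact h1.symm
  have cα' : ∀ s, D.a12 (α' s) = 1 := fun s => by rw [aux _ _ _ (kα s), cα]
  have cx' : ∀ s, D.a12 (x' s) = tgt t 2 s := fun s => by rw [aux _ _ _ (kx s), cx]
  have cβ' : ∀ s, D.a21 (β' s) = 1 := fun s => by rw [aux _ _ _ (kβ s), cβ]
  have cy' : ∀ s, D.a21 (y' s) = tgt t 1 s := fun s => by rw [aux _ _ _ (ky s), cy]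
  obtain ⟨T, hT⟩ := tau g t D v α' β' x' y' hv2 cα' cβ' cx' cy'
  have gT := tge g n t D v α' β' x' y' T hT (hv1.mono (lev_anti _ hmn)) cα' cβ' cx' cy' G1 G2
  have sc := cla g m n B t D v α β x y α' β' x' y' X T hmn hmB hv2 ⟨gX, rX, aX⟩ ⟨cα, cβ, cx, cy, cc⟩ V1 V2 kα kx
    kβ ky hT
  -- the counting lemma
  let π : Lq (Surf g) n →* Surf g ⧸ Wn D n :=
    QuotientGroup.map _ _ (MonoidHom.id _) fun w hw => lvn_lev_le_Wn D n hw
  have gXW : GenMod (Wn D n) X := gX.mono ((lev_anti _ hmn).trans (lvn_lev_le_Wn D n))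
  have gXn : GenMod (lev (Surf g) n) X := gX.mono (lev_anti _ hmn)
  obtain ⟨y0, hy1, hy2, hy3⟩ := gen (Lq (Surf g) n) (Surf g ⧸ Wn D n) π g
    (fun i => QuotientGroup.mk (T i)) (fun i => QuotientGroup.mk (X i)) (genMod_iff_gen.1 gT) (genMod_iff_gen.1 gXW)
    sc 1 (fun i => QuotientGroup.mk (X i)) (fun i => rfl)
    (by
      have h1 := Rel_map (QuotientGroup.mk' (lev (Surf g) n)) X
      rw [show (Rel fun i => (QuotientGroup.mk (X i) : Lq (Surf g) n)) = QuotientGroup.mk' _ (Rel X) from h1.symm]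
      exact (QuotientGroup.eq_one_iff _).2 (lev_anti _ hmn rX))
    (genMod_iff_gen.1 gXn)
  choose Y hY using fun i => QuotientGroup.mk_surjective (y0 i)
  have hYT : ∀ i, (Y i)⁻¹ * T i ∈ Wn D n := by
    intro i
    have h1 : (QuotientGroup.mk (Y i) : Surf g ⧸ Wn D n) = QuotientGroup.mk (T i) := by
      rw [← hy1 i, ← hY i]
      rfl
    exact QuotientGroup.eq.1 h1
  refine ⟨Y, ?_, ?_, ?_⟩
  · rw [genMod_iff_gen]
    have h1 : (fun i => (QuotientGroup.mk (Y i) : Surf g ⧸ lev (Surf g) n)) = y0 := funext hY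
    rw [h1]
    exact hy3
  · have h1 := Rel_map (QuotientGroup.mk' (lev (Surf g) n)) Y
    have h2 : (fun i => QuotientGroup.mk' (lev (Surf g) n) (Y i)) = y0 := funext hY
    rw [h2, hy2] at h1
    exact (QuotientGroup.eq_one_iff _).1 h1
  · intro s j
    obtain ⟨t0, t1, t2⟩ := hT
    have key : ∀ (f : Surf g →* FreeGroup (Fin g)) (i : Fin g × Bool), f ((Y i)⁻¹ * T i) ∈ lev (FreeGroup (Fin g)) n →
        f (T i) = 1 → f (Y i) ∈ lev (FreeGroup (Fin g)) n := by
      intro f i h1 h2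
      rw [map_mul, h2, mul_one, map_inv] at h1
      exact (inv_mem_iff (x := f (Y i))).1 h1
    have w0 := fun i => ((mem_Wn D n).1 (hYT i)).1
    have w1 := fun i => ((mem_Wn D n).1 (hYT i)).2.1
    have w2 := fun i => ((mem_Wn D n).1 (hYT i)).2.2
    have ts : t s = 1 ∨ t s = 2 := by
      have := D.ty s
      revert this
      generalize t s = r
      revert r
      decide
    rcases ts with ts | ts
    · have n2' : t s ≠ 2 := by rw [ts]; decide
      obtain ⟨q1, q2, q3, q4⟩ := t1 s n2'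
      fin_cases j
      · show D.f0 (Y (s, decide (t s = 0))) ∈ _
        have : decide (t s = 0) = false := by rw [ts]; decide
        rw [this]
        exact key _ _ (w0 _) (t0 s).1
      · show D.f1 (Y (s, decide (t s = 1))) ∈ _
        have : decide (t s = 1) = true := by rw [ts]; decide
        rw [this]
        exact key _ _ (w1 _) q3
      · show D.f2 (Y (s, decide (t s = 2))) ∈ _
        have : decide (t s = 2) = false := by rw [ts]; decide
        rw [this]
        exact key _ _ (w2 _) q2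
    · obtain ⟨q1, q2, q3, q4⟩ := t2 s ts
      fin_cases j
      · show D.f0 (Y (s, decide (t s = 0))) ∈ _
        have : decide (t s = 0) = false := by rw [ts]; decide
        rw [this]
        exact key _ _ (w0 _) (t0 s).1
      · show D.f1 (Y (s, decide (t s = 1))) ∈ _
        have : decide (t s = 1) = false := by rw [ts]; decide
        rw [this]
        exact key _ _ (w1 _) q1
      · show D.f2 (Y (s, decide (t s = 2))) ∈ _
        have : decide (t s = 2) = true := by rw [ts]; decide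
        rw [this]
        exact key _ _ (w2 _) q4

end Pool.Agent.Helper69.TPF
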