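import Pool.Agent.Helper69.TPF.St3

set_option autoImplicit false

open scoped commutatorElement

namespace Pool.Agent.Helper69.TPF

open Pool.Agent.Helper6.TS

theorem sym_std {g : ℕ} (t : Fin g → Fin 3) (l j : Fin 3) : std (fun s => t s - l) j = std t (j + l) := by
  apply PresentedGroup.ext
  intro x
  show std _ j (PresentedGroup.of x) = std _ (j + l) (PresentedGroup.of x)
  unfold std
  rw [PresentedGroup.toGroup.of, PresentedGroup.toGroup.of]
  unfold stdGen
  have h : t x.1 - l = j ↔ t x.1 = j + l := sub_eq_iff_eq_add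
  simp only [h]

theorem cSYM : St_SYM := by
  intro g k f t l
  refine ⟨fun hf => ⟨fun j => hf.surj _, fun j => ?_⟩, fun h => ?_, ?_⟩
  · have h1 := hf.sector (j + l)
    have e1 : j + 1 + l = j + l + 1 := add_right_comm _ _ _
    have e2 : j + 2 + l = j + l + 2 := add_right_comm _ _ _
    show FreePushout (f (j + 1 + l)) (f (j + 2 + l)) (k (j + l))
    rw [e1, e2]
    exact h1
  · funext j
    rw [← h]
    unfold numType
    apply Fintype.card_congr
    exact Equiv.subtypeEquivRight fun i => sub_eq_iff_eq_add
  · rintro ⟨θ, ψ, h⟩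
    refine ⟨θ, fun j => ψ (j - l), fun j => ?_⟩
    have h1 : FCarries (f (j - l + l)) (std (fun s => t s - l) (j - l)) θ (ψ (j - l)) := h (j - l)
    rw [sym_std, sub_add_cancel] at h1
    exact h1

end Pool.Agent.Helper69.TPF
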