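import Pool.Agent.Helper69.TPF.St1
import Pool.Agent.Helper69.TPF.St3
import Pool.Agent.Helper10.TPF.M_FRC
import Pool.Agent.Helper11.TPF.M_DEL
import Pool.Agent.Helper13.TPF.M_BAS
import Pool.Agent.Helper15.TPF.M_CRR
import Pool.Agent.Helper15.TPF.M_GEN
import Pool.Agent.Helper19.TPF.M_EPS
import Pool.Agent.Helper2.TPF.M_HOP
import Pool.Agent.Helper2.TPF.M_NRM
import Pool.Agent.Helper2.TPF.M_PAR
import Pool.Agent.Helper2.TPF.M_VAN
import Pool.Agent.Helper21.TPF.M_SIG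
import Pool.Agent.Helper21.TPF.M_TGH
import Pool.Agent.Helper26.TPF.M_KNG
import Pool.Agent.Helper29.TPF.M_CMF
import Pool.Agent.Helper32.TPF.M_ADJ
import Pool.Agent.Helper32.TPF.M_VNL
import Pool.Agent.Helper34.TPF.M_CAB
import Pool.Agent.Helper36.TPF.M_ATF
import Pool.Agent.Helper36.TPF.M_ATS
import Pool.Agent.Helper36.TPF.M_NGN
import Pool.Agent.Helper36.TPF.M_VNA
import Pool.Agent.Helper37.TPF.M_CEN
import Pool.Agent.Helper37.TPF.M_IDE
import Pool.Agent.Helper40.TPF.M_COR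
import Pool.Agent.Helper40.TPF.M_GRD
import Pool.Agent.Helper40.TPF.M_PRE
import Pool.Agent.Helper42.TPF.M_CNT
import Pool.Agent.Helper42.TPF.M_RLF
import Pool.Agent.Helper48.TPF.M_TCO
import Pool.Agent.Helper51.TPF.M_WRE
import Pool.Agent.Helper58.TPF.M_NHX
import Pool.Agent.Helper6.TPF.M_INV
import Pool.Agent.Helper61.TPF.M_GAS
import Pool.Agent.Helper64.TPF.M_CLA
import Pool.Agent.Helper64.TPF.M_TGE
import Pool.Agent.Helper69.TPF.M_ADP
import Pool.Agent.Helper69.TPF.M_CLS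
import Pool.Agent.Helper69.TPF.M_FIN
import Pool.Agent.Helper69.TPF.M_HEX
import Pool.Agent.Helper69.TPF.M_LVN
import Pool.Agent.Helper69.TPF.M_SYM
import Pool.Agent.Helper7.TPF.M_EXT
import Pool.Agent.Helper72.TPF.M_NG1
import Pool.Agent.Helper81.TPF.M_KNA
import Pool.Agent.Helper84.TPF.M_TAU
import Pool.Agent.Helper89.TPF.M_FML
import Pool.Agent.Helper95.TPF.M_GAL
import Pool.Agent.Helper99.TPF.M_LFI

/-!
# Project TPF: assembly
-/

set_option autoImplicit false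

namespace Pool.Agent.Helper69.TPF

theorem aADJ : St_ADJ := Pool.Agent.Helper32.TPF.cADJ

theorem aGRD : St_GRD := Pool.Agent.Helper40.TPF.cGRD

theorem aIDE : St_IDE := Pool.Agent.Helper37.TPF.cIDE aADJ aGRD

theorem aINV : St_INV := Pool.Agent.Helper6.TPF.cINV aADJ aGRD

theorem aCAB : St_CAB := Pool.Agent.Helper34.TPF.cCAB aGRD

theorem aFML : St_FML := Pool.Agent.Helper89.TPF.cFML aADJ aGRD aINV

theorem aVAN : St_VAN := Pool.Agent.Helper2.TPF.cVAN aADJ aGRD aINV aCAB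

theorem aNRM : St_NRM := Pool.Agent.Helper2.TPF.cNRM

theorem aEXT : St_EXT := Pool.Agent.Helper7.TPF.cEXT aADJ aGRD aINV aNRM

theorem aCNT : St_CNT := Pool.Agent.Helper42.TPF.cCNT

theorem aTCO : St_TCO := Pool.Agent.Helper48.TPF.cTCO aADJ aGRD aIDE aINV aCAB aFML aVAN aEXT aCNT

theorem aGEN : St_GEN := Pool.Agent.Helper15.TPF.cGEN aTCO

theorem aLFI : St_LFI := Pool.Agent.Helper99.TPF.cLFI

theorem aGAS : St_GAS := Pool.Agent.Helper61.TPF.cGAS

theorem aGAL : St_GAL := Pool.Agent.Helper95.TPF.cGAL aLFI aGAS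

theorem aRLF : St_RLF := Pool.Agent.Helper42.TPF.cRLF aLFI

theorem aPRE : St_PRE := Pool.Agent.Helper40.TPF.cPRE aLFI aRLF

theorem aNGN : St_NGN := Pool.Agent.Helper36.TPF.cNGN

theorem aCEN : St_CEN := Pool.Agent.Helper37.TPF.cCEN

theorem aFRC : St_FRC := Pool.Agent.Helper10.TPF.cFRC aCEN

theorem aADP : St_ADP := Pool.Agent.Helper69.TPF.cADP aLFI aFRC aGEN

theorem aBAS : St_BAS := Pool.Agent.Helper13.TPF.cBAS aGAL

theorem aDEL : St_DEL := Pool.Agent.Helper11.TPF.cDEL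

theorem aCOR : St_COR := Pool.Agent.Helper40.TPF.cCOR aDEL

theorem aNG1 : St_NG1 := Pool.Agent.Helper72.TPF.cNG1 aRLF

theorem aEPS : St_EPS := Pool.Agent.Helper19.TPF.cEPS aGAL

theorem aVNA : St_VNA := Pool.Agent.Helper36.TPF.cVNA aLFI

theorem aWRE : St_WRE := Pool.Agent.Helper51.TPF.cWRE

theorem aVNL : St_VNL := Pool.Agent.Helper32.TPF.cVNL aEPS aPRE aNGN aVNA aWRE

theorem aHOP : St_HOP := Pool.Agent.Helper2.TPF.cHOP

theorem aNHX : St_NHX := Pool.Agent.Helper58.TPF.cNHX aHOP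

theorem aHEX : St_HEX := Pool.Agent.Helper69.TPF.cHEX aNHX

theorem aCMF : St_CMF := Pool.Agent.Helper29.TPF.cCMF

theorem aPAR : St_PAR := Pool.Agent.Helper2.TPF.cPAR

theorem aCLS : St_CLS := Pool.Agent.Helper69.TPF.cCLS aCEN aCMF aPAR

theorem aSIG : St_SIG := Pool.Agent.Helper21.TPF.cSIG aDEL

theorem aTAU : St_TAU := Pool.Agent.Helper84.TPF.cTAU aDEL

theorem aCLA : St_CLA := Pool.Agent.Helper64.TPF.cCLA aDEL aCLS aSIG

theorem aCRR : St_CRR := Pool.Agent.Helper15.TPF.cCRR aGAL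

theorem aTGH : St_TGH := Pool.Agent.Helper21.TPF.cTGH aNGN

theorem aTGE : St_TGE := Pool.Agent.Helper64.TPF.cTGE aDEL aTGH

theorem aLVN : St_LVN := Pool.Agent.Helper69.TPF.cLVN aLFI aGEN aBAS aADP aCOR aNG1 aVNL aCRR aTAU aTGE aCLA

theorem aKNA : St_KNA := Pool.Agent.Helper81.TPF.cKNA aLFI

theorem aATS : St_ATS := Pool.Agent.Helper36.TPF.cATS aLFI

theorem aATF : St_ATF := Pool.Agent.Helper36.TPF.cATF aLFI

theorem aKNG : St_KNG := Pool.Agent.Helper26.TPF.cKNG aKNA aATS aATF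

theorem aSYM : St_SYM := Pool.Agent.Helper69.TPF.cSYM

theorem aFIN : St_FIN := Pool.Agent.Helper69.TPF.cFIN aLVN aHEX aKNG aSYM

end Pool.Agent.Helper69.TPF
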