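import Pool.Agent.Helper6.TS.Stmt

/-!
# Project TPF: profinite standardness of trisections with a ball sector. Definitions.
-/

set_option autoImplicit false

open scoped commutatorElement

namespace Pool.Agent.Helper69.TPF

open Pool.Agent.Helper6.TS

/-- The intersection of the normal subgroups of `G` of index between `1` and `n`. -/
def lev (G : Type) [Group G] (n : ℕ) : Subgroup G :=
  sInf {N : Subgroup G | N.Normal ∧ N.index ≠ 0 ∧ N.index ≤ n}

variable {G H : Type} [Group G] [Group H]

theorem mem_lev {n : ℕ} {x : G} :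
    x ∈ lev G n ↔ ∀ N : Subgroup G, N.Normal → N.index ≠ 0 → N.index ≤ n → x ∈ N := by
  unfold lev
  rw [Subgroup.mem_sInf]
  exact ⟨fun h N h1 h2 h3 => h N ⟨h1, h2, h3⟩, fun h N hN => h N hN.1 hN.2.1 hN.2.2⟩

instance lev_normal (G : Type) [Group G] (n : ℕ) : (lev G n).Normal := by
  refine ⟨fun x hx y => ?_⟩
  rw [mem_lev] at hx ⊢
  exact fun N h1 h2 h3 => h1.conj_mem x (hx N h1 h2 h3) y

theorem lev_anti (G : Type) [Group G] {m n : ℕ} (h : m ≤ n) : lev G n ≤ lev G m := by
  intro x hx
  rw [mem_lev] at hx ⊢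
  exact fun N h1 h2 h3 => hx N h1 h2 (h3.trans h)

theorem lev_map (f : G →* H) {n : ℕ} {x : G} (hx : x ∈ lev G n) : f x ∈ lev H n := by
  rw [mem_lev] at hx ⊢
  intro N h1 h2 h3
  have h4 : (N.comap f).index ∣ N.index := by
    rw [Subgroup.index_comap]
    exact Subgroup.relIndex_dvd_index_of_normal _ _
  exact hx (N.comap f) (h1.comap f) (fun h => h2 (Nat.eq_zero_of_zero_dvd (h ▸ h4)))
    ((Nat.le_of_dvd (Nat.pos_of_ne_zero h2) h4).trans h3)

theorem lev_kill [Finite H] (f : G →* H) {n : ℕ} (hn : Nat.card H ≤ n) {x : G} (hx : x ∈ lev G n) :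
    f x = 1 := by
  rw [mem_lev] at hx
  have h1 : f.ker.index = Nat.card f.range := by
    rw [Subgroup.index_ker]
  have h2 : Nat.card f.range ≤ Nat.card H := Nat.card_le_card_of_injective _ Subtype.val_injective
  exact hx f.ker inferInstance (by rw [h1]; exact Nat.card_pos.ne') (by omega)

/-- The quotient of `G` by its subgroup of level `n`. -/
abbrev Lq (G : Type) [Group G] (n : ℕ) : Type := G ⧸ lev G n

/-- The homomorphism of the quotients of level `n` induced by a homomorphism. -/
def lmap (f : G →* H) (n : ℕ) : Lq G n →* Lq H n :=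
  QuotientGroup.map _ _ f fun _ hx => lev_map f hx

/-- The projection from the quotient of level `n + 1` to the quotient of level `n`. -/
def lproj (G : Type) [Group G] (n : ℕ) : Lq G (n + 1) →* Lq G n :=
  QuotientGroup.map _ _ (MonoidHom.id G) fun _ hx => lev_anti G (Nat.le_succ n) hx

/-- The automorphism `a` of the quotient of level `n + 1` induces the automorphism `b` of the quotient of
level `n`. -/
def LInduces {G : Type} [Group G] (n : ℕ) (a : Lq G (n + 1) ≃* Lq G (n + 1)) (b : Lq G n ≃* Lq G n) : Prop :=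
  Square (lproj G n) (lproj G n) a b

/-- A compatible family of automorphisms of the quotients of `G` by its subgroups of level `n`, that is, an
automorphism of the profinite completion of `G` (for finitely generated `G`). -/
structure FTower (G : Type) [Group G] where
  aut : ∀ n : ℕ, Lq G n ≃* Lq G n
  compat : ∀ n, LInduces n (aut (n + 1)) (aut n)

/-- The automorphisms `θ, ψ` of the towers of finite quotients carry the homomorphism `s` to the homomorphism `a`, at
every level. -/
def FCarries {G H : Type} [Group G] [Group H] (a s : G →* H) (θ : FTower G) (ψ : FTower H) : Prop :=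
  ∀ n, Square (lmap s n) (lmap a n) (θ.aut n) (ψ.aut n)

/-- The triple `f` is profinitely standard, with handles of types `t`. -/
def StandardAtAllFiniteLevels {g : ℕ} (f : Fin 3 → (Surf g →* FreeGroup (Fin g))) (t : Fin g → Fin 3) : Prop :=
  ∃ (θ : FTower (Surf g)) (ψ : Fin 3 → FTower (FreeGroup (Fin g))), ∀ j, FCarries (f j) (std t j) θ (ψ j)

/-- The product of the commutators `[y (i, false), y (i, true)]`. -/
def Rel {g : ℕ} {G : Type} [Group G] (y : Fin g × Bool → G) : G :=
  ((List.finRange g).map fun i => ⁅y (i, false), y (i, true)⁆).prod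

theorem Rel_map {g : ℕ} (φ : G →* H) (y : Fin g × Bool → G) : φ (Rel y) = Rel fun i => φ (y i) := by
  unfold Rel
  rw [map_list_prod, List.map_map]
  congr 1
  apply List.map_congr_left
  intro i _
  simp [map_commutatorElement]

theorem Rel_eq_lift {g : ℕ} (y : Fin g × Bool → G) : Rel y = FreeGroup.lift y (relator g) := by
  have h := Rel_map (FreeGroup.lift y) (fun i : Fin g × Bool => FreeGroup.of i)
  simp only [FreeGroup.lift_apply_of] at h
  rw [← h]
  rfl

theorem Rel_gen (g : ℕ) : Rel (fun i : Fin g × Bool => (PresentedGroup.of i : Surf g)) = 1 := by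
  rw [Rel_eq_lift]
  have h : FreeGroup.lift (fun i : Fin g × Bool => (PresentedGroup.of i : Surf g)) =
      PresentedGroup.mk {relator g} := by
    ext i
    simp [PresentedGroup.of]
  rw [h]
  exact (PresentedGroup.one_of_mem rfl)

/-- The surface group is finitely generated. -/
instance surf_fg (g : ℕ) : Group.FG (Surf g) :=
  Group.fg_iff.2 ⟨_, PresentedGroup.closure_range_of _, Set.finite_range _⟩

/-- The tuple generates the group. -/
def Gen {ι : Type} {G : Type} [Group G] (y : ι → G) : Prop := Subgroup.closure (Set.range y) = ⊤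

/-- The tuple generates the group modulo the subgroup `N`. -/
def GenMod {ι : Type} {G : Type} [Group G] (N : Subgroup G) (y : ι → G) : Prop :=
  Subgroup.closure (Set.range y) ⊔ N = ⊤

theorem GenMod.mono {ι : Type} {N M : Subgroup G} (h : N ≤ M) {y : ι → G} (hy : GenMod N y) : GenMod M y := by
  unfold GenMod at *
  rw [← top_le_iff, ← hy]
  exact sup_le_sup_left h _

theorem GenMod.le {ι : Type} {N K : Subgroup G} {y : ι → G} (hy : GenMod N y) (h1 : ∀ i, y i ∈ K) (h2 : N ≤ K)
    (x : G) : x ∈ K := by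
  have h3 : Subgroup.closure (Set.range y) ⊔ N ≤ K :=
    sup_le ((Subgroup.closure_le _).2 (by rintro _ ⟨i, rfl⟩; exact h1 i)) h2
  exact h3 (hy ▸ Subgroup.mem_top x)

theorem genMod_of_le {ι : Type} {N : Subgroup G} {y : ι → G}
    (h : ∀ K : Subgroup G, (∀ i, y i ∈ K) → N ≤ K → K = ⊤) : GenMod N y :=
  h _ (fun i => (le_sup_left : _ ≤ Subgroup.closure (Set.range y) ⊔ N) (Subgroup.subset_closure ⟨i, rfl⟩))
    le_sup_right

/-- The images under an epimorphism of a generating tuple modulo `N` generate modulo `M`, if `N` maps into `M`. -/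
theorem GenMod.map {ι : Type} {N : Subgroup G} {M : Subgroup H} {y : ι → G} (hy : GenMod N y) (f : G →* H)
    (hf : Function.Surjective f) (h : ∀ x ∈ N, f x ∈ M) : GenMod M fun i => f (y i) := by
  apply genMod_of_le
  intro K h1 h2
  rw [Subgroup.eq_top_iff']
  intro x
  obtain ⟨z, rfl⟩ := hf x
  exact hy.le (K := K.comap f) h1 (fun w hw => h2 (h w hw)) z

theorem genMod_iff_gen {ι : Type} {N : Subgroup G} [N.Normal] {y : ι → G} :
    GenMod N y ↔ Gen fun i => (QuotientGroup.mk (y i) : G ⧸ N) := by
  constructor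
  · intro h
    have h1 := h.map (M := ⊥) (QuotientGroup.mk' N) (QuotientGroup.mk'_surjective N)
      (fun x hx => by
        rw [Subgroup.mem_bot]
        exact (QuotientGroup.eq_one_iff x).2 hx)
    unfold GenMod at h1
    rw [sup_bot_eq] at h1
    exact h1
  · intro h
    apply genMod_of_le
    intro K h1 h2
    have h3 : K.map (QuotientGroup.mk' N) = ⊤ := by
      rw [← top_le_iff]
      unfold Gen at h
      rw [← h, Subgroup.closure_le]
      rintro _ ⟨i, rfl⟩
      exact ⟨y i, h1 i, rfl⟩
    rw [Subgroup.eq_top_iff']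
    intro x
    have h4 : QuotientGroup.mk' N x ∈ K.map (QuotientGroup.mk' N) := h3 ▸ Subgroup.mem_top _
    obtain ⟨z, hz, hzx⟩ := h4
    have h5 : z⁻¹ * x ∈ N := QuotientGroup.eq.1 hzx
    have h6 := K.mul_mem hz (h2 h5)
    rwa [mul_inv_cancel_left] at h6

/-- Two homomorphisms to a finite group of order at most `m` which agree on a tuple generating modulo level `m` are
equal. -/
theorem hom_eq_of_genMod {ι : Type} [Finite H] {m : ℕ} (hm : Nat.card H ≤ m) {y : ι → G} (hy : GenMod (lev G m) y)
    (φ ψ : G →* H) (h : ∀ i, φ (y i) = ψ (y i)) : φ = ψ := by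
  ext x
  refine hy.le (K := φ.eqLocus ψ) h (fun w hw => ?_) x
  show φ w = ψ w
  rw [lev_kill φ hm hw, lev_kill ψ hm hw]

/-- A homomorphism to a quotient of level `n` kills the subgroup of level `n`. -/
theorem lev_hom_kill {n : ℕ} (φ : G →* Lq H n) {x : G} (hx : x ∈ lev G n) : φ x = 1 := by
  obtain ⟨h, hh⟩ := QuotientGroup.mk_surjective (φ x)
  rw [← hh, QuotientGroup.eq_one_iff, mem_lev]
  intro N h1 h2 h3
  have hfi : N.FiniteIndex := ⟨h2⟩
  have : Finite (H ⧸ N) := Subgroup.finite_quotient_of_finiteIndex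
  let q : Lq H n →* H ⧸ N :=
    QuotientGroup.map _ _ (MonoidHom.id H) fun w hw => (mem_lev.1 hw) N h1 h2 h3
  have h4 : (q.comp φ) x = 1 := lev_kill (q.comp φ) h3 hx
  have h5 : q (QuotientGroup.mk h) = 1 := by rw [hh]; exact h4
  exact (QuotientGroup.eq_one_iff h).1 h5

/-- In every finite central extension of `G` of order at most `B` the surface words of lifts of the two tuples have
the same value. -/
def SameClass {g : ℕ} (B : ℕ) {G : Type} [Group G] (t t' : Fin g × Bool → G) : Prop :=
  ∀ (Γ : Type) [Group Γ] [Finite Γ] (p : Γ →* G), Function.Surjective p → p.ker ≤ Subgroup.center Γ →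
    Nat.card Γ ≤ B → ∀ s s' : Fin g × Bool → Γ, (∀ i, p (s i) = t i) → (∀ i, p (s' i) = t' i) → Rel s = Rel s'

/-- The generator `s` if its type is `l`, and `1` otherwise. -/
def tgt {g : ℕ} (t : Fin g → Fin 3) (l : Fin 3) (s : Fin g) : FreeGroup {i // t i = l} :=
  if h : t s = l then FreeGroup.of ⟨s, h⟩ else 1

/-- A triple of epimorphisms of the class of Q1, with the epimorphisms to the groups of the two sectors which are not
balls (sector `1` belongs to `f0, f2` and sector `2` to `f0, f1`). -/
structure HexData (g : ℕ) (t : Fin g → Fin 3) where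
  f0 : Surf g →* FreeGroup (Fin g)
  f1 : Surf g →* FreeGroup (Fin g)
  f2 : Surf g →* FreeGroup (Fin g)
  a01 : FreeGroup (Fin g) →* FreeGroup {i // t i = 1}
  a02 : FreeGroup (Fin g) →* FreeGroup {i // t i = 2}
  a12 : FreeGroup (Fin g) →* FreeGroup {i // t i = 2}
  a21 : FreeGroup (Fin g) →* FreeGroup {i // t i = 1}
  s0 : Function.Surjective f0
  s1 : Function.Surjective f1
  s2 : Function.Surjective f2
  c1 : ∀ x, a01 (f0 x) = a21 (f2 x)
  c2 : ∀ x, a02 (f0 x) = a12 (f1 x)
  hex : ∀ p q, ∃ z, a01 z = p ∧ a02 z = q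
  n1 : ∀ ν, a12 ν = 1 → ∃ k, f0 k = 1 ∧ f1 k = ν ∧ f2 k = 1
  n2 : ∀ ν, a21 ν = 1 → ∃ k, f0 k = 1 ∧ f1 k = 1 ∧ f2 k = ν
  ty : ∀ i, t i ≠ 0

end Pool.Agent.Helper69.TPF
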