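import Pool.Agent.Helper69.TPF.St3

set_option autoImplicit false

open scoped commutatorElement

namespace Pool.Agent.Helper69.TPF

open Pool.Agent.Helper6.TS

theorem cls_list {Γ ι : Type} [Group Γ] (a b z : ι → Γ) (hab : ∀ i j, a i * b j = b j * a i)
    (hz : ∀ i, z i ∈ Subgroup.center Γ) (L : List ι) :
    (L.map fun i => a i * b i * z i).prod = (L.map a).prod * (L.map b).prod * (L.map z).prod := by
  induction L with
  | nil => simp
  | cons i L ih =>
    simp only [List.map_cons, List.prod_cons]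
    rw [ih]
    have h1 : ∀ w, w * z i = z i * w := Subgroup.mem_center_iff.1 (hz i)
    have h2 : b i * (L.map a).prod = (L.map a).prod * b i := by
      clear ih
      induction L with
      | nil => simp
      | cons j L ih2 =>
        simp only [List.map_cons, List.prod_cons]
        rw [← mul_assoc, ← hab j i, mul_assoc, ih2, mul_assoc]
    calc a i * b i * z i * ((L.map a).prod * (L.map b).prod * (L.map z).prod)
        = a i * (b i * (z i * ((L.map a).prod * (L.map b).prod))) * (L.map z).prod := by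
          simp only [mul_assoc]
      _ = a i * (b i * (((L.map a).prod * (L.map b).prod) * z i)) * (L.map z).prod := by rw [h1]
      _ = a i * ((b i * (L.map a).prod) * (L.map b).prod * z i) * (L.map z).prod := by
          simp only [mul_assoc]
      _ = a i * (((L.map a).prod * b i) * (L.map b).prod * z i) * (L.map z).prod := by rw [h2]
      _ = _ := by simp only [mul_assoc]

theorem cls_lift {F' Γ G : Type} [Group Γ] [Group G] (p : Γ →* G) (hp : Function.Surjective p)
    (s : FreeGroup F' →* G) : ∃ r : FreeGroup F' →* Γ, ∀ z, p (r z) = s z := by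
  choose w hw using fun i => hp (s (FreeGroup.of i))
  refine ⟨FreeGroup.lift w, fun z => ?_⟩
  have h : p.comp (FreeGroup.lift w) = s := by
    ext i
    simp [hw]
  rw [← h]
  rfl

theorem cls_comm_center {Γ G : Type} [Group Γ] [Group G] (p : Γ →* G) (hker : p.ker ≤ Subgroup.center Γ) {a b : Γ}
    (h : p a * p b = p b * p a) : ⁅a, b⁆ ∈ Subgroup.center Γ := by
  apply hker
  rw [MonoidHom.mem_ker, map_commutatorElement, commutatorElement_eq_one_iff_mul_comm]
  exact h

theorem cCLS (cen : St_CEN) (cmf : St_CMF) (par : St_PAR) : St_CLS := by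
  intro g B t Γ G _ _ _ p hp hker hB s1 s2 N1 N2 K1 K2 _ _ hK1 hK2 hc1 hc2 α β x y α' β' x' y' hα hβ hx hy hβ2 hα2
    hR1 hR2 cα cx cβ cy u u' hu1 hu2 hu'1 hu'2
  obtain ⟨r1, hr1⟩ := cls_lift p hp s1
  obtain ⟨r2, hr2⟩ := cls_lift p hp s2
  have z1 : ∀ ν ∈ N1, ∀ y, ⁅r1 ν, r2 y⁆ ∈ Subgroup.center Γ := fun ν hν y =>
    cls_comm_center p hker (by rw [hr1, hr2]; exact hc1 ν hν y)
  have z2 : ∀ ν ∈ N2, ∀ x, ⁅r2 ν, r1 x⁆ ∈ Subgroup.center Γ := fun ν hν x =>
    cls_comm_center p hker (by rw [hr1, hr2]; exact (hc2 x ν hν).symm)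
  obtain ⟨a1, a2, a3, a4⟩ := par _ _ r1 r2 N1 z1
  obtain ⟨b1, b2, b3, b4⟩ := par _ _ r2 r1 N2 z2
  have inv : ∀ a b : Γ, ⁅b, a⁆ = ⁅a, b⁆⁻¹ := fun a b => (commutatorElement_inv a b).symm
  -- kernels
  have k1 : ∀ ν ∈ N2, ∀ c ∈ ⁅N1, N1⁆ ⊔ K1, ⁅r2 ν, r1 c⁆ = 1 := by
    intro ν hν c hc
    let χ : Subgroup (FreeGroup (Fin g)) :=
      { carrier := {c | ⁅r2 ν, r1 c⁆ = 1}
        one_mem' := by simp
        mul_mem' := by
          intro c c' h h'
          show ⁅r2 ν, r1 (c * c')⁆ = 1
          rw [b1 ν hν, h, h', one_mul]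
        inv_mem' := by
          intro c h
          show ⁅r2 ν, r1 c⁻¹⁆ = 1
          have h3 := b1 ν hν c c⁻¹
          have h4 : ⁅r2 ν, r1 c⁆ = 1 := h
          rw [mul_inv_cancel, map_one, commutatorElement_one_right, h4, one_mul] at h3
          exact h3.symm }
    have h5 : ⁅N1, N1⁆ ⊔ K1 ≤ χ := by
      apply sup_le
      · intro c hc
        exact b4 ν hν c (Subgroup.commutator_mono le_top le_top hc)
      · intro c hc
        show ⁅r2 ν, r1 c⁆ = 1
        have h6 : r1 c ∈ Subgroup.center Γ := hker (by rw [MonoidHom.mem_ker, hr1, hK1 c hc])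
        rw [commutatorElement_eq_one_iff_mul_comm]
        exact Subgroup.mem_center_iff.1 h6 _
    exact h5 hc
  have k2 : ∀ ν ∈ N1, ∀ c ∈ ⁅N2, N2⁆ ⊔ K2, ⁅r1 ν, r2 c⁆ = 1 := by
    intro ν hν c hc
    let χ : Subgroup (FreeGroup (Fin g)) :=
      { carrier := {c | ⁅r1 ν, r2 c⁆ = 1}
        one_mem' := by simp
        mul_mem' := by
          intro c c' h h'
          show ⁅r1 ν, r2 (c * c')⁆ = 1
          rw [a1 ν hν, h, h', one_mul]
        inv_mem' := by
          intro c h
          show ⁅r1 ν, r2 c⁻¹⁆ = 1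
          have h3 := a1 ν hν c c⁻¹
          have h4 : ⁅r1 ν, r2 c⁆ = 1 := h
          rw [mul_inv_cancel, map_one, commutatorElement_one_right, h4, one_mul] at h3
          exact h3.symm }
    have h5 : ⁅N2, N2⁆ ⊔ K2 ≤ χ := by
      apply sup_le
      · intro c hc
        exact a4 ν hν c (Subgroup.commutator_mono le_top le_top hc)
      · intro c hc
        show ⁅r1 ν, r2 c⁆ = 1
        have h6 : r2 c ∈ Subgroup.center Γ := hker (by rw [MonoidHom.mem_ker, hr2, hK2 c hc])
        rw [commutatorElement_eq_one_iff_mul_comm]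
        exact Subgroup.mem_center_iff.1 h6 _
    exact h5 hc
  let z : Fin g → Γ := fun s => if t s = 2 then ⁅r2 (β s), r1 (x s)⁆ else ⁅r1 (α s), r2 (y s)⁆
  have hz : ∀ s, z s ∈ Subgroup.center Γ := by
    intro s
    show (if t s = 2 then ⁅r2 (β s), r1 (x s)⁆ else ⁅r1 (α s), r2 (y s)⁆) ∈ _
    split_ifs
    · exact z2 _ (hβ s) _
    · exact z1 _ (hα s) _
  have e1 : Rel u = ((List.finRange g).map z).prod := by
    have h1 : Rel u = Rel fun i : Fin g × Bool =>
        if i.2 then r1 (x i.1) * r2 (y i.1) else r1 (α i.1) * r2 (β i.1) := by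
      apply cen g Γ G p hker
      rintro ⟨s, b⟩
      cases b
      · rw [hu1]
        simp [hr1, hr2]
      · rw [hu2]
        simp [hr1, hr2]
    rw [h1]
    unfold Rel
    have h2 : ∀ s : Fin g, ⁅(if ((s, false) : Fin g × Bool).2 then r1 (x s) * r2 (y s) else r1 (α s) * r2 (β s)),
        (if ((s, true) : Fin g × Bool).2 then r1 (x s) * r2 (y s) else r1 (α s) * r2 (β s))⁆ =
        r1 ⁅α s, x s⁆ * r2 ⁅β s, y s⁆ * z s := by
      intro s
      simp only [Bool.false_eq_true, if_false, if_true]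
      have c1 : ⁅r1 (α s), r2 (β s)⁆ ∈ Subgroup.center Γ := z1 _ (hα s) _
      have c2 : ⁅r1 (α s), r2 (y s)⁆ ∈ Subgroup.center Γ := z1 _ (hα s) _
      have c3 : ⁅r2 (β s), r1 (x s)⁆ ∈ Subgroup.center Γ := z2 _ (hβ s) _
      have c4 : ⁅r1 (x s), r2 (y s)⁆ ∈ Subgroup.center Γ := by
        by_cases h : t s = 2
        · rw [inv (r2 (y s))]
          exact inv_mem (z2 _ (hy s h) _)
        · exact z1 _ (hx s h) _
      rw [cmf Γ _ _ _ _ c1 c2 c3 c4, map_commutatorElement, map_commutatorElement]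
      congr 1
      show _ = (if t s = 2 then ⁅r2 (β s), r1 (x s)⁆ else ⁅r1 (α s), r2 (y s)⁆)
      split_ifs with h
      · have h3 : ⁅r1 (α s), r2 (y s)⁆ = 1 := by
          rw [inv (r2 (y s)), k1 _ (hy s h) _ (hα2 s h), inv_one]
        rw [h3, one_mul]
      · have h3 : ⁅r2 (β s), r1 (x s)⁆ = 1 := by
          rw [inv (r1 (x s)), k2 _ (hx s h) _ (hβ2 s h), inv_one]
        rw [h3, mul_one]
    have h3 : ((List.finRange g).map fun s : Fin g =>
        ⁅(if ((s, false) : Fin g × Bool).2 then r1 (x s) * r2 (y s) else r1 (α s) * r2 (β s)),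
        (if ((s, true) : Fin g × Bool).2 then r1 (x s) * r2 (y s) else r1 (α s) * r2 (β s))⁆) =
        (List.finRange g).map fun s => r1 ⁅α s, x s⁆ * r2 ⁅β s, y s⁆ * z s :=
      List.map_congr_left fun s _ => h2 s
    refine (congrArg List.prod h3).trans ?_
    rw [cls_list (fun s => r1 ⁅α s, x s⁆) (fun s => r2 ⁅β s, y s⁆) z ?_ hz]
    · have h4 : ((List.finRange g).map fun s => r1 ⁅α s, x s⁆).prod = 1 := by
        have h5 := lev_kill r1 hB hR1
        unfold Rel2 at h5
        rw [map_list_prod, List.map_map] at h5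
        exact h5
      have h6 : ((List.finRange g).map fun s => r2 ⁅β s, y s⁆).prod = 1 := by
        have h5 := lev_kill r2 hB hR2
        unfold Rel2 at h5
        rw [map_list_prod, List.map_map] at h5
        exact h5
      rw [h4, h6, one_mul, one_mul]
    · intro i j
      have h7 : ⁅α i, x i⁆ ∈ N1 := by
        rw [commutatorElement_def, mul_assoc, mul_assoc]
        apply mul_mem (hα i)
        rw [← mul_assoc]
        exact Subgroup.Normal.conj_mem inferInstance _ (inv_mem (hα i)) _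
      have h8 := a4 _ h7 ⁅β j, y j⁆ (Subgroup.commutator_mem_commutator (Subgroup.mem_top _) (Subgroup.mem_top _))
      exact commutatorElement_eq_one_iff_mul_comm.1 h8
  have e2 : Rel u' = ((List.finRange g).map z).prod := by
    have h1 : Rel u' = Rel fun i : Fin g × Bool =>
        if t i.1 = 2 then (if i.2 then r1 (x' i.1) else r2 (β' i.1)) else (if i.2 then r2 (y' i.1) else r1 (α' i.1)) := by
      apply cen g Γ G p hker
      rintro ⟨s, b⟩
      by_cases h : t s = 2
      · obtain ⟨h2, h3⟩ := hu'2 s h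
        cases b
        · rw [h2]
          simp [hr2, h]
        · rw [h3]
          simp [hr1, h]
      · obtain ⟨h2, h3⟩ := hu'1 s h
        cases b
        · rw [h2]
          simp [hr1, h]
        · rw [h3]
          simp [hr2, h]
    rw [h1]
    unfold Rel
    congr 1
    apply List.map_congr_left
    intro s _
    show _ = (if t s = 2 then ⁅r2 (β s), r1 (x s)⁆ else ⁅r1 (α s), r2 (y s)⁆)
    by_cases h : t s = 2
    · simp only [h, if_true, Bool.false_eq_true, if_false]
      have e3 : β' s = β s * ((β s)⁻¹ * β' s) := by rw [mul_inv_cancel_left]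
      have e4 : x' s = x s * ((x s)⁻¹ * x' s) := by rw [mul_inv_cancel_left]
      have m1 : (β s)⁻¹ * β' s ∈ N2 := Subgroup.commutator_le_left N2 N2 (cβ s)
      rw [e3, b2 _ (hβ s) _ m1, b3 _ (cβ s), mul_one, e4, b1 _ (hβ s),
        b4 _ (hβ s) _ (Subgroup.commutator_mono le_top le_top (cx s)), mul_one]
    · simp only [h, if_true, Bool.false_eq_true, if_false]
      have e3 : α' s = α s * ((α s)⁻¹ * α' s) := by rw [mul_inv_cancel_left]
      have e4 : y' s = y s * ((y s)⁻¹ * y' s) := by rw [mul_inv_cancel_left]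
      have m1 : (α s)⁻¹ * α' s ∈ N1 := Subgroup.commutator_le_left N1 N1 (cα s)
      rw [e3, a2 _ (hα s) _ m1, a3 _ (cα s), mul_one, e4, a1 _ (hα s),
        a4 _ (hα s) _ (Subgroup.commutator_mono le_top le_top (cy s)), mul_one]
  rw [e1, e2]

end Pool.Agent.Helper69.TPF
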