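import Pool.Agent.Helper69.TPF.Defs

/-!
# Project TPF, part T: counting lifts of surface words through an extension of finite groups

Throughout `E, G` are finite groups, `π : E → G` an epimorphism, `V = ker π`, `A = ℂ[E]`.
-/

set_option autoImplicit false

open scoped commutatorElement ComplexConjugate

namespace Pool.Agent.Helper69.TPF

/-- The group algebra. -/
abbrev AA (E : Type) : Type := MonoidAlgebra ℂ E

variable {E G : Type} [Group E] [Group G]

/-- The adjoint `∑ conj (z x) x⁻¹` of `z = ∑ (z x) x`. -/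
noncomputable def adj [Fintype E] (z : AA E) : AA E :=
  ∑ x : E, MonoidAlgebra.single x⁻¹ (conj (z.coeff x))

/-- The coefficient at the identity. -/
noncomputable def tau (z : AA E) : ℂ := z.coeff 1

/-- `z` is supported on the fibre of `h` and commutes with the elements of the kernel of `π`. -/
def CC (π : E →* G) (h : G) (z : AA E) : Prop :=
  (∀ x, z.coeff x ≠ 0 → π x = h) ∧
    ∀ v, π v = 1 → MonoidAlgebra.single v 1 * z = z * MonoidAlgebra.single v 1

/-- `e` is a primitive central idempotent of the group algebra of the kernel of `π` (primitive in `CC π 1`, the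
centre of that algebra). -/
def IsPrim (π : E →* G) (e : AA E) : Prop :=
  CC π 1 e ∧ e * e = e ∧ e ≠ 0 ∧ ∀ z, CC π 1 z → ∃ c : ℂ, e * z = c • e

open Classical in
/-- The sum of the commutators `[x, y]` with `π x = a`, `π y = b`. -/
noncomputable def Cab [Fintype E] (π : E →* G) (a b : G) : AA E :=
  ∑ x : E, ∑ y : E, if π x = a ∧ π y = b then MonoidAlgebra.single ⁅x, y⁆ 1 else 0

/-- The product of the elements `Cab (t (i, false)) (t (i, true))`. -/
noncomputable def nE [Fintype E] (π : E →* G) {g : ℕ} (t : Fin g × Bool → G) : AA E :=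
  ((List.finRange g).map fun i => Cab π (t (i, false)) (t (i, true))).prod

/-- `w'` is the inverse of `w` in the corner of the idempotent `e`. -/
def EInv (e w w' : AA E) : Prop := e * w = w ∧ w * e = w ∧ e * w' = w' ∧ w' * e = w' ∧ w * w' = e ∧ w' * w = e

/-- **ADJ** (the adjoint).  Direct computation with coefficients: `(adj z).coeff x = conj (z.coeff x⁻¹)`.
The last clause: for `x` with `(adj z).coeff x ≠ 0` one has `z.coeff x⁻¹ ≠ 0`, so `π x⁻¹ = h`; apply `adj` to
`v⁻¹ z = z v⁻¹` for the commutation with `v` (`adj (single v 1) = single v⁻¹ 1`). -/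
def St_ADJ : Prop :=
  ∀ (E G : Type) [Group E] [Group G] [Fintype E] (π : E →* G),
    (∀ z w : AA E, adj (z * w) = adj w * adj z) ∧ (∀ z : AA E, adj (adj z) = z) ∧
    (∀ z w : AA E, adj (z + w) = adj z + adj w) ∧ (∀ (c : ℂ) (z : AA E), adj (c • z) = conj c • adj z) ∧
    adj (1 : AA E) = 1 ∧
    (∀ z : AA E, tau (z * adj z) = ((∑ x : E, ‖z.coeff x‖ ^ 2 : ℝ) : ℂ)) ∧
    (∀ z : AA E, z * adj z = 0 → z = 0) ∧ (∀ z w : AA E, tau (z * w) = tau (w * z)) ∧
    (∀ h z, CC π h z → CC π h⁻¹ (adj z))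

/-- **GRD** (the graded algebra).  The elements `z` with `CC π h z` form the homogeneous part of degree `h` of the
centraliser of `ℂ[V]` in `ℂ[E]`.  Clause 7: `z` is supported in `V`, so it is a linear combination of elements
`single v 1` with `π v = 1`, which commute with `w`. -/
def St_GRD : Prop :=
  ∀ (E G : Type) [Group E] [Group G] [Fintype E] (π : E →* G),
    CC π 1 (1 : AA E) ∧ (∀ h, CC π h (0 : AA E)) ∧
    (∀ h (z w : AA E), CC π h z → CC π h w → CC π h (z + w)) ∧
    (∀ h (c : ℂ) (z : AA E), CC π h z → CC π h (c • z)) ∧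
    (∀ h (z w : AA E), CC π h z → CC π h w → CC π h (z - w)) ∧
    (∀ h h' (z w : AA E), CC π h z → CC π h' w → CC π (h * h') (z * w)) ∧
    (∀ h (z w : AA E), CC π 1 z → CC π h w → z * w = w * z) ∧
    (∀ h h' (z : AA E), z ≠ 0 → CC π h z → CC π h' z → h = h')

/-- **IDE** (enough primitive idempotents; hypotheses ADJ, GRD).  `Z = {z | CC π 1 z}` is a commutative subalgebra
of `ℂ[E]` (GRD), finite dimensional over `ℂ`, hence Artinian, and reduced: for `z ∈ Z`, `adj z ∈ Z` commutes with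
`z`; if `z ^ 2 = 0`, then `y = z * adj z` has `y = adj y` and `y * adj y = z ^ 2 * (adj z) ^ 2 = 0`, so `y = 0` and
`z = 0` (ADJ).  So `Z` is the product of its residue fields (`IsArtinianRing.equivPi`), which are finite dimensional
over `ℂ`, hence equal to `ℂ` (`IsAlgClosed.algebraMap_bijective_of_isIntegral` or similar).  The component of `z ≠ 0`
at some maximal ideal is nonzero; `e` is the corresponding primitive idempotent. -/
def St_IDE : Prop :=
  ∀ (E G : Type) [Group E] [Group G] [Fintype E] (π : E →* G) (z : AA E), CC π 1 z → z ≠ 0 →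
    ∃ e, IsPrim π e ∧ e * z ≠ 0

/-- **INV** (homogeneous elements are invertible in the corner, and unique up to a scalar; hypotheses ADJ, GRD).
First `adj e = e`: `e * adj e = c • e` (`CC π 1 (adj e)`, primitivity), `tau (e * adj e) > 0` so `c ≠ 0`; the
commuting idempotents `e, adj e` have an idempotent product, so `c = 1`; `e * adj e = e`, and applying `adj`:
`e * adj e = adj e`.  `tau e = tau (e * adj e) = ∑ ‖e x‖² > 0` is nonzero.  Let `CC π h w`, `u = e * w = w * e ≠ 0`
(GRD clause 7).  `u * adj u` has degree `h * h⁻¹ = 1`, so `u * adj u = e * (u * adj u) = c • e`, `c ≠ 0` because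
`u * adj u ≠ 0`; in the same way `adj u * u = c' • e`, `c' ≠ 0`; then `c = c'`: `u * (adj u * u) = c' • u` and
`(u * adj u) * u = c • u`.  `w' = c⁻¹ • adj u`.  For `CC π h z`: `e * z * w'` has degree 1, so
`e * z * w' = d • e`; multiply by `u` on the right. -/
def St_INV : Prop :=
  ∀ (E G : Type) [Group E] [Group G] [Fintype E] (π : E →* G) (e : AA E), IsPrim π e →
    adj e = e ∧ tau e ≠ 0 ∧
    ∀ (h : G) (w : AA E), CC π h w → e * w ≠ 0 →
      (∃ w', CC π h⁻¹ w' ∧ EInv e (e * w) w') ∧ ∀ z, CC π h z → ∃ c : ℂ, e * z = c • (e * w)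

/-- **CAB** (hypothesis GRD).  `π [x, y] = [a, b]` on the support.  For `π v = 1` conjugation by `v` permutes the
pairs `(x, y)` with `π x = a`, `π y = b`, and `v [x, y] v⁻¹ = [v x v⁻¹, v y v⁻¹]`. -/
def St_CAB : Prop :=
  ∀ (E G : Type) [Group E] [Group G] [Fintype E] (π : E →* G) (a b : G), CC π ⁅a, b⁆ (Cab π a b)

/-- **FML** (hypotheses ADJ, GRD, INV; the key formula).  `|V| = Nat.card π.ker`.  For `y ∈ E` put
`Av y = ∑_{v ∈ V} v y v⁻¹`, which is in `CC π (π y)`.  For `π y = b`: `e * Av y = ℓ(y) • wb` (INV, last clause,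
with `w = wb`, `e * wb = wb`), and multiplying by `wb'` and taking `tau`:
`ℓ(y) tau e = tau (Av y * wb') = |V| * tau (y * wb')` (`wb'` commutes with `v`, `tau` is a trace)
`= |V| * wb'.coeff y⁻¹`.  Choose `x₀` with `π x₀ = a` (if there is none, then `wa = 0` by its support and `e = 0`;
so it exists).  `Cab π a b = ∑_{y} (∑_{v ∈ V} x₀ v y v⁻¹ x₀⁻¹) y⁻¹ = ∑_{π y = b} x₀ (Av y) x₀⁻¹ y⁻¹`.
`wa = α x₀` with `α = wa x₀⁻¹` supported in `V`; `e` and `α` commute with ... : for `z ∈ CC π b`,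
`wa z wa' = e x₀ z x₀⁻¹`: indeed `x₀ z x₀⁻¹` is again in some `CC` (conjugation by `x₀` normalises `V`), so it
commutes with `α ∈ ℂ[V]`, and `wa z = α x₀ z = α (x₀ z x₀⁻¹) x₀ = (x₀ z x₀⁻¹) α x₀ = (x₀ z x₀⁻¹) wa`, hence
`wa z wa' = (x₀ z x₀⁻¹) e`.  So `e * Cab π a b = ∑_y e x₀ (Av y) x₀⁻¹ y⁻¹ = ∑_y wa (Av y) wa' y⁻¹ =
∑_y ℓ(y) • wa wb wa' y⁻¹ = wa wb wa' Zb` with `Zb = e * ∑_{π y = b} ℓ(y) • y⁻¹` (use `wa' = wa' e` and
`wa (Av y) wa' = wa (e Av y) wa'`).  `S = ∑_{π y = b} ℓ(y) • y⁻¹ = (|V| / tau e) ∑_{π y = b} wb'.coeff y⁻¹ • y⁻¹ =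
(|V| / tau e) • wb'`, because `wb'` is supported on the fibre of `b⁻¹`.  So `Zb = (|V| / tau e) • wb'`. -/
def St_FML : Prop :=
  ∀ (E G : Type) [Group E] [Group G] [Fintype E] (π : E →* G) (e : AA E), IsPrim π e →
    ∀ (a b : G) (wa wa' wb wb' : AA E), CC π a wa → CC π a⁻¹ wa' → EInv e wa wa' →
      CC π b wb → CC π b⁻¹ wb' → EInv e wb wb' →
      e * Cab π a b = ((Nat.card π.ker : ℂ) / tau e) • (wa * wb * wa' * wb')

/-- **VAN** (hypotheses ADJ, GRD, INV, CAB).  With `Av` and `x₀` as in FML (if the fibre of `a` or `b` is empty then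
`Cab π a b = 0`): `Cab π a b = ∑_{π y = b} (x₀ (Av y) x₀⁻¹) y⁻¹` and each `x₀ (Av y) x₀⁻¹` is in
`CC π (a b a⁻¹)`; so `e * Cab ≠ 0` gives `w₁ ∈ CC π (a b a⁻¹)` with `e * w₁ ≠ 0`.  In the same way
`[x, y] = x (y x⁻¹ y⁻¹)` gives `Cab π a b = ∑_{π x = a} x * (y₀ (Av x⁻¹) y₀⁻¹)` with `π y₀ = b` and
`y₀ (Av x⁻¹) y₀⁻¹` in `CC π (b a⁻¹ b⁻¹)`; as `e` commutes with `Cab π a b` (CAB, GRD) and with this element, there is
`w₂ ∈ CC π (b a⁻¹ b⁻¹)` with `e * w₂ ≠ 0`.  And `w₃ = Cab π a b ∈ CC π [a, b]`.  By INV products and inverses of such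
elements are again nonzero after multiplication by `e` (they are invertible in the corner), and
`a = [a, b] (b a⁻¹ b⁻¹)⁻¹`, `b = (a b a⁻¹)⁻¹ ... `: `[a, b] = (a b a⁻¹) b⁻¹`, so `b = [a, b]⁻¹ (a b a⁻¹)`, and
`[a, b] = a (b a⁻¹ b⁻¹)`, so `a = [a, b] (b a⁻¹ b⁻¹)⁻¹`. -/
def St_VAN : Prop :=
  ∀ (E G : Type) [Group E] [Group G] [Fintype E] (π : E →* G) (e : AA E), IsPrim π e →
    ∀ a b : G, e * Cab π a b ≠ 0 → (∃ w, CC π a w ∧ e * w ≠ 0) ∧ ∃ w, CC π b w ∧ e * w ≠ 0

/-- **NRM** (norm of `c e + (1 - e)`).  Left multiplication by `c e + (1 - e)` on `A = e A ⊕ (1 - e) A` is the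
multiplication by `c` on `e A` and the identity on `(1 - e) A`.  So its determinant is `c ^ d`, `d = dim (e A)`,
`1 ≤ d ≤ |E|` (`e ≠ 0`).  `Algebra.norm` is by definition the determinant of the left multiplication. -/
def St_NRM : Prop :=
  ∀ (E : Type) [Group E] [Fintype E] (e : AA E), e * e = e → e ≠ 0 →
    ∃ d : ℕ, 1 ≤ d ∧ d ≤ Nat.card E ∧ ∀ c : ℂ, Algebra.norm ℂ (c • e + (1 - e)) = c ^ d

/-- **EXT** (the central extension; hypotheses ADJ, GRD, INV, NRM).  Let `Γ` be the set of the units `u` of `A` of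
the form `u = w + (1 - e)` with `CC π h w`, `e * w = w` for some `h`, and `Algebra.norm ℂ u = 1`.  `w = e * u` is
determined by `u`, it is nonzero, so `h` is unique (GRD, last clause).  `Γ` is a subgroup of the units:
`(w₁ + (1 - e)) (w₂ + (1 - e)) = w₁ w₂ + (1 - e)` (`w e = e w = w` as `e` is central for the homogeneous elements);
the inverse is `w' + (1 - e)` with `w'` from INV.  `p u = h` is a homomorphism.  Kernel: `w = e w = c • e`
(primitivity), so `u = c • e + (1 - e)`, `c ^ d = 1` (NRM): at most `d ≤ |E|` elements, and they are central in `Γ`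
(`(c • e) w = w (c • e)`).  `p` is surjective: for `h ∈ G` take `w ∈ CC π h` with `e * w ≠ 0`, replace `w` by `e * w`;
`u = w + (1 - e)` is a unit (INV) with `δ = norm u ≠ 0`; `c • w + (1 - e) = (c • e + (1 - e)) * u` has norm
`c ^ d δ`; choose `c ≠ 0` with `c ^ d = δ⁻¹`.  `|Γ| = |ker p| |G| ≤ |E| |G|`.  `val u = e * u`. -/
def St_EXT : Prop :=
  ∀ (E G : Type) [Group E] [Group G] [Fintype E] [Finite G] (π : E →* G) (e : AA E), IsPrim π e →
    (∀ h : G, ∃ w, CC π h w ∧ e * w ≠ 0) →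
    ∃ (Γ : Type) (_ : Group Γ) (_ : Finite Γ) (p : Γ →* G) (val : Γ → AA E), Function.Surjective p ∧
      p.ker ≤ Subgroup.center Γ ∧ Nat.card Γ ≤ Nat.card E * Nat.card G ∧
      (∀ γ, CC π (p γ) (val γ)) ∧ (∀ γ, e * val γ = val γ) ∧ (∀ γ δ, val (γ * δ) = val γ * val δ) ∧ val 1 = e

/-- **CNT** (the coefficients of `nE` count lifts).  By induction on `g`: `List.finRange (g + 1) =
0 :: (List.finRange g).map Fin.succ`, `nE t = Cab (t (0, false)) (t (0, true)) * nE (t ∘ succ)`, and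
`Rel y = [y (0, false), y (0, true)] * Rel (y ∘ succ)`.  Coefficient of a product of sums of group elements. -/
def St_CNT : Prop :=
  ∀ (E G : Type) [Group E] [Group G] [Fintype E] (π : E →* G) (g : ℕ) (t : Fin g × Bool → G) (x : E),
    (nE π t).coeff x = (Nat.card {y : Fin g × Bool → E // (∀ i, π (y i) = t i) ∧ Rel y = x} : ℂ)

/-- **TCO** (equality of the numbers of lifts; hypotheses ADJ, GRD, IDE, INV, CAB, FML, VAN, EXT, CNT).
Claim `nE t = nE t'`.  `Rel t = Rel t'` (SameClass with `Γ = G`, `p = id`; `|G| ≤ |E| |G|`).  If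
`π` has `Rel t ≠ 1` nothing changes.  Reduction: let `d = nE t - nE t'`, in `CC π (Rel t)` (CAB, GRD) and suppose
`d ≠ 0`.  `y = d * adj d` is in `CC π 1`, nonzero; IDE gives `e` with `e * y ≠ 0`, so `e * d ≠ 0`.  `e` commutes with
all homogeneous elements, `e * nE t = ∏ (e * Cab ..)`.  If `{h | ∃ w, CC π h w ∧ e * w ≠ 0}` (a subgroup, by INV) is
not `⊤`, then it does not contain all `t i` (they generate), so by VAN some factor `e * Cab` is `0` and
`e * nE t = 0`, and in the same way `e * nE t' = 0`.  If it is `⊤`, take `Γ, p, val` of EXT and lifts `s, s'` of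
`t, t'` (`p` surjective).  `val γ` and `val γ⁻¹` are inverse in the corner (EInv), so by FML
`e * Cab (t (i, false)) (t (i, true)) = c • val [s (i, false), s (i, true)]`, `c = |V| / tau e`, and
`e * nE t = c ^ g • val (Rel s)` (for `g = 0` both sides are `e`), likewise for `t'`; `Rel s = Rel s'`.
So `e * d = 0`, a contradiction.  Conclude with CNT. -/
def St_TCO : Prop :=
  ∀ (E G : Type) [Group E] [Group G] [Finite E] [Finite G] (π : E →* G) (g : ℕ) (t t' : Fin g × Bool → G),
    Gen t → Gen t' → SameClass (Nat.card E * Nat.card G) t t' →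
    ∀ x : E, Nat.card {y : Fin g × Bool → E // (∀ i, π (y i) = t i) ∧ Rel y = x} =
      Nat.card {y : Fin g × Bool → E // (∀ i, π (y i) = t' i) ∧ Rel y = x}

/-- **GEN** (generating lifts; hypothesis TCO).  For a subgroup `K ≤ E` let `g_K(t)` be the number of
`y : Fin g × Bool → E` with `π ∘ y = t`, `Rel y = x`, `closure (range y) = K`.  Claim: `g_K(t) = g_K(t')`
for all `K`, by strong induction on `|K|`.  If `x ∉ K` or `π (K) ≠ ⊤` both are `0` (`t, t'` generate `G`).
Otherwise the number of all `y` with values in `K` is the same for `t` and `t'` by TCO for `π|K : K → G`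
(`|K| |G| ≤ |E| |G|`, SameClass is monotone in `B`), and it is the sum of `g_{K'}(t)` over the subgroups `K' ≤ K`.
Take `K = ⊤`. -/
def St_GEN : Prop :=
  ∀ (E G : Type) [Group E] [Group G] [Finite E] [Finite G] (π : E →* G) (g : ℕ) (t t' : Fin g × Bool → G),
    Gen t → Gen t' → SameClass (Nat.card E * Nat.card G) t t' →
    ∀ (x : E) (y' : Fin g × Bool → E), (∀ i, π (y' i) = t' i) → Rel y' = x → Gen y' →
      ∃ y : Fin g × Bool → E, (∀ i, π (y i) = t i) ∧ Rel y = x ∧ Gen y

end Pool.Agent.Helper69.TPF
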